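import Mathlib
import Pool.Agent.W484.CK.Stm
import Pool.Agent.W550.Corr.Basic

/-!
# Unramified cohomology of products: statements
-/

set_option autoImplicit false

open CategoryTheory AlgebraicGeometry

universe u w

namespace Pool.Agent.T2h14.UC

open Polynomial Pool.Agent.H914 Pool.Agent.H914.VarClass Pool.Agent.H914.VarClass.Obj
  Pool.Agent.W492.BB Pool.Agent.W484.CK

variable {k : Type u} [Field k] {𝒱 : VarClass k}

/-- The data of a theory of cycle cohomology, with integral correspondences. `Z X Y` is the Chow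
group `CH(X × Y)` with **integral** coefficients; `degZ X Y j` is `CH^(dim X + j)(X × Y)`, the
correspondences of degree `j`; `rat` is the map to the Chow group with rational coefficients.
`M X` is the direct sum of abelian groups `M^i(X)` on which correspondences act. The main example
is `M^i(X) = H^(i - c)(X, ℋ^(n + i - c)(ℚ_ℓ/ℤ_ℓ(i)))` for given `n` and `c`, the cohomology in the
Zariski topology of the sheaves associated with the étale cohomology, so that `M^i(X) = 0` for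
`i < c`, and `M^c(X) = H^0(X, ℋ^n(ℚ_ℓ/ℤ_ℓ(c)))` is the unramified cohomology
`H^n_nr(X, ℚ_ℓ/ℤ_ℓ(c))`. -/
structure CycleCohomology (C : TheoryData.{u, 0, 0} 𝒱 ℚ) where
  /-- the Chow group of `X × Y` with integral coefficients -/
  Z : 𝒱.Obj → 𝒱.Obj → Type
  [groupZ : ∀ X Y, AddCommGroup (Z X Y)]
  /-- the correspondences of degree `j` -/
  degZ : ∀ X Y, ℤ → AddSubgroup (Z X Y)
  /-- the composition of correspondences -/
  comp : ∀ {X Y W : 𝒱.Obj}, Z X Y → Z Y W → Z X W
  /-- the transpose of the graph of a morphism -/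
  graph : ∀ {X Y : 𝒱.Obj}, (X ⟶ Y) → Z Y X
  /-- rational coefficients -/
  rat : ∀ {X Y : 𝒱.Obj}, Z X Y → C.A (X.prod Y)
  /-- the group `M(X)` -/
  M : 𝒱.Obj → Type
  [groupM : ∀ X, AddCommGroup (M X)]
  /-- the group `M^i(X)` -/
  gr : ∀ X, ℤ → AddSubgroup (M X)
  /-- the action of correspondences -/
  act : ∀ {X Y : 𝒱.Obj}, Z X Y → M X → M Y

attribute [instance] CycleCohomology.groupZ CycleCohomology.groupM

namespace CycleCohomology

variable {C : TheoryData.{u, 0, 0} 𝒱 ℚ} (U : CycleCohomology C) {X Y : 𝒱.Obj}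

/-- The pull-back `f^* : M(Y) → M(X)`, the action of the transpose of the graph. -/
def restrict (f : X ⟶ Y) (m : U.M Y) : U.M X := U.act (U.graph f) m

/-- The group `M^c(X)`, that is, the unramified cohomology of `X`. -/
abbrev Unr (c : ℕ) (X : 𝒱.Obj) : AddSubgroup (U.M X) := U.gr X (c : ℤ)

/-- The maps are additive. -/
structure IsAdditive : Prop where
  rat_add : ∀ {X Y : 𝒱.Obj} (Δ Δ' : U.Z X Y), U.rat (Δ + Δ') = U.rat Δ + U.rat Δ'
  act_add_left : ∀ {X Y : 𝒱.Obj} (Δ Δ' : U.Z X Y) (m : U.M X),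
    U.act (Δ + Δ') m = U.act Δ m + U.act Δ' m
  act_add_right : ∀ {X Y : 𝒱.Obj} (Δ : U.Z X Y) (m m' : U.M X),
    U.act Δ (m + m') = U.act Δ m + U.act Δ m'

/-- The integral Chow groups modulo torsion are lattices in the Chow groups with rational
coefficients, compatibly with the degrees. -/
structure IsLattice : Prop where
  rat_exists : ∀ {X Y : 𝒱.Obj} (Γ : C.A (X.prod Y)), ∃ n : ℕ, 0 < n ∧ ∃ Δ : U.Z X Y,
    U.rat Δ = (n : ℚ) • Γ ∧ ∀ j : ℤ, C.Deg (X.dim + j) Γ → Δ ∈ U.degZ X Y j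
  rat_torsion : ∀ {X Y : 𝒱.Obj} (Δ : U.Z X Y), U.rat Δ = 0 → ∃ n : ℕ, 0 < n ∧ n • Δ = 0

/-- Compatibility of `rat` with the composition of correspondences. -/
def RatComp : Prop := ∀ {X Y W : 𝒱.Obj} (Δ : U.Z X Y) (Δ' : U.Z Y W),
  U.rat (U.comp Δ Δ') = compose C (U.rat Δ) (U.rat Δ')

/-- The transposes of graphs. -/
structure HasGraphs : Prop where
  rat_graph : ∀ {X Y : 𝒱.Obj} (f : X ⟶ Y), U.rat (U.graph f) = C.down (Obj.lift f (𝟙 X)) 1
  graph_mem : ∀ {X Y : 𝒱.Obj} (f : X ⟶ Y), U.graph f ∈ U.degZ Y X 0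

/-- Correspondences act on `M`, with the usual degrees. -/
structure IsAction : Prop where
  act_mem : ∀ {X Y : 𝒱.Obj} {i j : ℤ} {Δ : U.Z X Y} {m : U.M X}, Δ ∈ U.degZ X Y j →
    m ∈ U.gr X i → U.act Δ m ∈ U.gr Y (i + j)
  act_comp : ∀ {X Y W : 𝒱.Obj} (Δ : U.Z X Y) (Δ' : U.Z Y W) (m : U.M X),
    U.act (U.comp Δ Δ') m = U.act Δ' (U.act Δ m)
  act_id : ∀ {X : 𝒱.Obj} (m : U.M X), U.restrict (𝟙 X) m = m

/-- The formal properties of a theory of cycle cohomology, with `M^i(X) = 0` for `i < c`. -/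
structure IsTheory (c : ℕ) : Prop where
  additive : U.IsAdditive
  lattice : U.IsLattice
  ratComp : U.RatComp
  graphs : U.HasGraphs
  action : U.IsAction
  vanish : ∀ (X : 𝒱.Obj) (i : ℤ), i < c → U.gr X i = ⊥

/-- The endomorphism `π` acts on `M^i(X)` like the Frobenius endomorphism relative to the field with
`Q` elements: as multiplication by `Q ^ i`. -/
def FrobeniusActs (π : X ⟶ X) (Q : ℕ) : Prop :=
  ∀ (i : ℕ) (m : U.M X), m ∈ U.gr X i → U.restrict π m = Q ^ i • m

end CycleCohomology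

/-- The situation for the group `G = H^3_nr(X, ℚ_ℓ/ℤ_ℓ(2))` (or `ℚ/ℤ(2)`) over a finite field: there is
an exact sequence `A → G → B → D` with `A` finite, `B` divisible and finite subgroups `D[n]` for all
`n > 0`. Here `A = H^3(X, ℚ/ℤ(2))`, `B = CH^2(X) ⊗ ℚ/ℤ` and `D = H^4(X, ℚ/ℤ(2))`. For
`H^2_nr(X, ℚ/ℤ(1)) = Br(X)` there is such a sequence with `A = 0` by the Kummer sequence. -/
def HasSequence (G : Type) [AddCommGroup G] : Prop :=
  ∃ (A B D : Type) (_ : AddCommGroup A) (_ : AddCommGroup B) (_ : AddCommGroup D)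
    (f : A →+ G) (g : G →+ B) (h : B →+ D), Finite A ∧
    (∀ x, g x = 0 → ∃ a, f a = x) ∧ (∀ b, h b = 0 ↔ ∃ x, g x = b) ∧
    (∀ n : ℕ, 0 < n → ∀ b : B, ∃ b' : B, n • b' = b) ∧ ∀ n : ℕ, 0 < n → {d : D | n • d = 0}.Finite

/-- The unramified cohomology groups of `W × Z` and of `Z` agree up to groups of finite exponent, via
the pull-back along the projection `W × Z → Z`. -/
def AgreeUpToExponent {C : TheoryData.{u, 0, 0} 𝒱 ℚ} (U : CycleCohomology C) (c : ℕ)
    (W Z : 𝒱.Obj) : Prop :=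
  ∃ N : ℕ, 0 < N ∧ (∀ x ∈ U.Unr c (W.prod Z), ∃ y ∈ U.Unr c Z, N • x = U.restrict (snd W Z) y) ∧
    ∀ y ∈ U.Unr c Z, U.restrict (snd W Z) y = 0 → N • y = 0

/-- The unramified cohomology groups of `W × Z` and of `Z` agree up to groups of finite exponent, and
one of them is finite if and only if the other is (if they have the exact sequences above). -/
def UnramifiedReduces {C : TheoryData.{u, 0, 0} 𝒱 ℚ} (U : CycleCohomology C) (c : ℕ)
    (W Z : 𝒱.Obj) : Prop :=
  AgreeUpToExponent U c W Z ∧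
  (HasSequence (U.Unr c (W.prod Z)) → HasSequence (U.Unr c Z) →
    (Finite (U.Unr c (W.prod Z)) ↔ Finite (U.Unr c Z)))

end Pool.Agent.T2h14.UC
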