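import Mathlib
import Pool.Agent.T2h14.UC.Stm

/-!
# Finiteness of groups of finite exponent
-/

set_option autoImplicit false
set_option linter.unusedSectionVars false

namespace Pool.Agent.T2h14.UC

/-- A group with the exact sequence which has finite exponent is finite. -/
theorem finite_of_bounded {G : Type} [AddCommGroup G] (hG : HasSequence G) {N : ℕ} (hN : 0 < N)
    (h : ∀ x : G, N • x = 0) : Finite G := by
  obtain ⟨A, B, D, _, _, _, f, g, i, hA, hfg, hgi, hdiv, hD⟩ := hG
  -- the image of `g`
  choose d hd using fun b : B => hdiv N hN b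
  have hrange : (Set.range g).Finite := by
    have h1 : Set.MapsTo (fun b => i (d b)) (Set.range g) {e : D | (N * N) • e = 0} := by
      rintro _ ⟨x, rfl⟩
      change (N * N) • i (d (g x)) = 0
      rw [← map_nsmul, mul_smul, hd, ← map_nsmul, h, map_zero, map_zero]
    refine Set.Finite.of_injOn h1 ?_ (hD (N * N) (Nat.mul_pos hN hN))
    rintro _ ⟨x, rfl⟩ _ ⟨y, rfl⟩ hxy
    have h2 : i (d (g x) - d (g y)) = 0 := by
      rw [map_sub, sub_eq_zero]
      exact hxy
    obtain ⟨z, hz⟩ := (hgi _).1 h2
    have h3 : N • (d (g x) - d (g y)) = 0 := by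
      rw [← hz, ← map_nsmul, h, map_zero]
    rw [smul_sub, hd, hd, sub_eq_zero] at h3
    exact h3
  have hker : {x : G | g x = 0}.Finite := by
    refine (Set.finite_range f).subset ?_
    intro x hx
    exact hfg x hx
  have huniv : (Set.univ : Set G).Finite := by
    refine Set.Finite.of_finite_fibers g (by rw [Set.image_univ]; exact hrange) ?_
    rintro b -
    by_cases hb : ∃ x, g x = b
    · obtain ⟨x, rfl⟩ := hb
      refine ((hker.image (fun y => y + x))).subset ?_
      rintro y ⟨-, hy⟩
      have hy' : g y = g x := hy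
      exact ⟨y - x, by
        change g (y - x) = 0
        rw [map_sub, hy', sub_self], by simp⟩
    · refine Set.Finite.subset Set.finite_empty ?_
      rintro y ⟨-, hy⟩
      exact hb ⟨y, hy⟩
  exact Set.finite_univ_iff.1 huniv

end Pool.Agent.T2h14.UC
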