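import Mathlib
import Pool.Agent.T2h14.UC.Stm
import Pool.Agent.W484.CH.Main
import Pool.Agent.W484.CK.Chow

/-!
# From torsion theories to theories with rational coefficients

For an abelian group `N` the rational vector space `ℚ ⊗ N^ℕ` vanishes if and only if `N` has finite
exponent.
-/

set_option autoImplicit false
set_option linter.unusedSectionVars false

open CategoryTheory AlgebraicGeometry TensorProduct

universe u w

namespace Pool.Agent.T2h14.UC

open Polynomial Pool.Agent.H914 Pool.Agent.H914.VarClass Pool.Agent.H914.VarClass.Obj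
  Pool.Agent.W492.BB Pool.Agent.W550.Corr Pool.Agent.W484.CH

section alg

variable {N : Type} [AddCommGroup N]

theorem exists_den (x : ℚ ⊗[ℤ] N) : ∃ n : ℕ, 0 < n ∧ ∃ a : N, (n : ℚ) • x = 1 ⊗ₜ[ℤ] a := by
  induction x using TensorProduct.induction_on with
  | zero => exact ⟨1, one_pos, 0, by simp⟩
  | tmul t a =>
    refine ⟨t.den, t.den_pos, t.num • a, ?_⟩
    rw [TensorProduct.smul_tmul', smul_eq_mul, mul_comm, Rat.mul_den_eq_num, TensorProduct.tmul_smul,
      TensorProduct.smul_tmul']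
    simp
  | add x y hx hy =>
    obtain ⟨n, hn, a, ha⟩ := hx
    obtain ⟨m, hm, b, hb⟩ := hy
    refine ⟨n * m, Nat.mul_pos hn hm, m • a + n • b, ?_⟩
    rw [TensorProduct.tmul_add]
    have h1 : (1 : ℚ) ⊗ₜ[ℤ] (m • a) = (m : ℚ) • ((1 : ℚ) ⊗ₜ[ℤ] a) := by
      rw [TensorProduct.smul_tmul', smul_eq_mul, mul_one, TensorProduct.tmul_smul,
        TensorProduct.smul_tmul']
      simp
    have h2 : (1 : ℚ) ⊗ₜ[ℤ] (n • b) = (n : ℚ) • ((1 : ℚ) ⊗ₜ[ℤ] b) := by
      rw [TensorProduct.smul_tmul', smul_eq_mul, mul_one, TensorProduct.tmul_smul,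
        TensorProduct.smul_tmul']
      simp
    rw [h1, h2, ← ha, ← hb, smul_smul, smul_smul, smul_add]
    push_cast
    rw [mul_comm (m : ℚ)]

theorem torsion_of_eq_zero {a : N} (h : (1 : ℚ) ⊗ₜ[ℤ] a = 0) : ∃ n : ℕ, 0 < n ∧ n • a = 0 := by
  have h1 : IsLocalizedModule (nonZeroDivisors ℤ) (TensorProduct.mk ℤ ℚ N 1) :=
    (isLocalizedModule_iff_isBaseChange (nonZeroDivisors ℤ) ℚ _).2
      (TensorProduct.isBaseChange ℤ N ℚ)
  obtain ⟨c, hc⟩ := (IsLocalizedModule.eq_zero_iff (nonZeroDivisors ℤ)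
    (TensorProduct.mk ℤ ℚ N 1)).1 h
  have hc0 : (c : ℤ) ≠ 0 := nonZeroDivisors.ne_zero c.2
  refine ⟨(c : ℤ).natAbs, Int.natAbs_pos.2 hc0, ?_⟩
  have h2 : (c : ℤ) • a = 0 := hc
  rcases Int.natAbs_eq (c : ℤ) with h3 | h3
  · rw [h3, natCast_zsmul] at h2
    exact h2
  · rw [h3, neg_smul, neg_eq_zero, natCast_zsmul] at h2
    exact h2

end alg

variable {k : Type u} [Field k] {𝒱 : VarClass k} {C : TheoryData.{u, 0, 0} 𝒱 ℚ}
  (U : CycleCohomology C) {X Y W : 𝒱.Obj} {c : ℕ} (hU : U.IsTheory c)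

/-- The action as a homomorphism. -/
noncomputable def actH (X Y : 𝒱.Obj) : U.Z X Y →+ (U.M X →+ U.M Y) :=
  AddMonoidHom.mk' (fun Δ => AddMonoidHom.mk' (fun m => U.act Δ m)
    (fun m m' => hU.additive.act_add_right Δ m m'))
    (fun Δ Δ' => AddMonoidHom.ext fun m => hU.additive.act_add_left Δ Δ' m)

@[simp]
theorem actH_apply (Δ : U.Z X Y) (m : U.M X) : actH U hU X Y Δ m = U.act Δ m := rfl

/-- Rational coefficients, as a homomorphism. -/
noncomputable def ratH (X Y : 𝒱.Obj) : U.Z X Y →+ C.A (X.prod Y) :=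
  AddMonoidHom.mk' (fun Δ => U.rat Δ) (fun Δ Δ' => hU.additive.rat_add Δ Δ')

@[simp]
theorem ratH_apply (Δ : U.Z X Y) : ratH U hU X Y Δ = U.rat Δ := rfl

/-- The action on sequences. -/
noncomputable def seqAct (X Y : 𝒱.Obj) : U.Z X Y →ₗ[ℤ] ((ℕ → U.M X) →ₗ[ℤ] (ℕ → U.M Y)) :=
  AddMonoidHom.toIntLinearMap
    { toFun := fun Δ => AddMonoidHom.toIntLinearMap
        { toFun := fun m n => actH U hU X Y Δ (m n)
          map_zero' := by
            funext n
            rw [Pi.zero_apply, map_zero, Pi.zero_apply]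
          map_add' := fun a b => by
            funext n
            rw [Pi.add_apply, map_add, Pi.add_apply] }
      map_zero' := by
        refine LinearMap.ext fun m => ?_
        funext n
        change actH U hU X Y 0 (m n) = 0
        rw [map_zero, AddMonoidHom.zero_apply]
      map_add' := fun a b => by
        refine LinearMap.ext fun m => ?_
        funext n
        change actH U hU X Y (a + b) (m n) = actH U hU X Y a (m n) + actH U hU X Y b (m n)
        rw [map_add, AddMonoidHom.add_apply] }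

@[simp]
theorem seqAct_apply (Δ : U.Z X Y) (m : ℕ → U.M X) (n : ℕ) :
    seqAct U hU X Y Δ m n = U.act Δ (m n) := rfl

/-- The action of integral correspondences on the rational vector spaces. -/
noncomputable def ratAct (X Y : 𝒱.Obj) :
    U.Z X Y →ₗ[ℤ] (ℚ ⊗[ℤ] (ℕ → U.M X) →ₗ[ℚ] ℚ ⊗[ℤ] (ℕ → U.M Y)) :=
  (LinearMap.baseChangeHom ℤ ℚ (ℕ → U.M X) (ℕ → U.M Y)) ∘ₗ seqAct U hU X Y

theorem ratAct_apply (Δ : U.Z X Y) (m : ℕ → U.M X) :
    ratAct U hU X Y Δ (1 ⊗ₜ m) = 1 ⊗ₜ seqAct U hU X Y Δ m := by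
  simp [ratAct, LinearMap.baseChangeHom]

/-- The comparison of integral and rational correspondences. -/
noncomputable def ratMap (X Y : 𝒱.Obj) : ℚ ⊗[ℤ] U.Z X Y →ₗ[ℚ] C.A (X.prod Y) :=
  LinearMap.liftBaseChange ℚ (AddMonoidHom.toIntLinearMap (ratH U hU X Y))

theorem ratMap_one (Δ : U.Z X Y) : ratMap U hU X Y (1 ⊗ₜ Δ) = U.rat Δ := by
  simp [ratMap]

theorem ratMap_bijective (X Y : 𝒱.Obj) : Function.Bijective (ratMap U hU X Y) := by
  constructor
  · rw [injective_iff_map_eq_zero]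
    intro x hx
    obtain ⟨n, hn, a, ha⟩ := exists_den x
    have h1 : ratMap U hU X Y ((n : ℚ) • x) = 0 := by rw [map_smul, hx, smul_zero]
    rw [ha, ratMap_one] at h1
    obtain ⟨m, hm, h2⟩ := hU.lattice.rat_torsion a h1
    have h3 : (m : ℚ) • ((1 : ℚ) ⊗ₜ[ℤ] a) = 0 := by
      rw [TensorProduct.smul_tmul', smul_eq_mul, mul_one]
      have h4 : ((m : ℚ)) ⊗ₜ[ℤ] a = (1 : ℚ) ⊗ₜ[ℤ] (m • a) := by
        rw [TensorProduct.tmul_smul, TensorProduct.smul_tmul']
        simp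
      rw [h4, h2, TensorProduct.tmul_zero]
    rw [← ha, smul_smul] at h3
    exact (smul_eq_zero.1 h3).resolve_left (by positivity)
  · intro Γ
    obtain ⟨n, hn, Δ, hΔ, -⟩ := hU.lattice.rat_exists Γ
    refine ⟨(n : ℚ)⁻¹ • (1 ⊗ₜ Δ), ?_⟩
    rw [map_smul, ratMap_one, hΔ, smul_smul, inv_mul_cancel₀ (by positivity), one_smul]

/-- The rational theory associated with `M`. -/
noncomputable def corrData : CorrData C where
  M := fun X => ℚ ⊗[ℤ] (ℕ → U.M X)
  gr := fun X i => Submodule.span ℚ {x | ∃ m : ℕ → U.M X, (∀ n, m n ∈ U.gr X i) ∧ x = 1 ⊗ₜ m}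
  act := fun {X Y} => LinearMap.liftBaseChange ℚ (ratAct U hU X Y) ∘ₗ
    (LinearEquiv.ofBijective (ratMap U hU X Y) (ratMap_bijective U hU X Y)).symm.toLinearMap

theorem act_rat (Δ : U.Z X Y) (m : ℕ → U.M X) :
    (corrData U hU).act (U.rat Δ) (1 ⊗ₜ m) = 1 ⊗ₜ seqAct U hU X Y Δ m := by
  have h1 : (LinearEquiv.ofBijective (ratMap U hU X Y) (ratMap_bijective U hU X Y)).symm (U.rat Δ) =
      1 ⊗ₜ Δ := by
    rw [LinearEquiv.symm_apply_eq]
    exact (ratMap_one U hU Δ).symm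
  change (LinearMap.liftBaseChange ℚ (ratAct U hU X Y)
    ((LinearEquiv.ofBijective (ratMap U hU X Y) (ratMap_bijective U hU X Y)).symm (U.rat Δ)))
    (1 ⊗ₜ m) = _
  rw [h1, LinearMap.liftBaseChange_tmul, one_smul, ratAct_apply]

end Pool.Agent.T2h14.UC
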