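import Mathlib
import Pool.Agent.T2h14.UC.Tens

/-!
# The rational theory is a theory on which correspondences act
-/

set_option autoImplicit false
set_option linter.unusedSectionVars false

open CategoryTheory AlgebraicGeometry TensorProduct

universe u w

namespace Pool.Agent.T2h14.UC

open Polynomial Pool.Agent.H914 Pool.Agent.H914.VarClass Pool.Agent.H914.VarClass.Obj
  Pool.Agent.W492.BB Pool.Agent.W550.Corr Pool.Agent.W484.CH

section alg

variable {N : Type} [AddCommGroup N]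

theorem one_tmul_nsmul (n : ℕ) (a : N) :
    (1 : ℚ) ⊗ₜ[ℤ] (n • a) = (n : ℚ) • ((1 : ℚ) ⊗ₜ[ℤ] a) := by
  rw [TensorProduct.smul_tmul', smul_eq_mul, mul_one, TensorProduct.tmul_smul,
    TensorProduct.smul_tmul']
  simp

theorem one_tmul_zsmul (n : ℤ) (a : N) :
    (1 : ℚ) ⊗ₜ[ℤ] (n • a) = (n : ℚ) • ((1 : ℚ) ⊗ₜ[ℤ] a) := by
  rw [TensorProduct.smul_tmul', smul_eq_mul, mul_one, TensorProduct.tmul_smul,
    TensorProduct.smul_tmul']
  simp

end alg

variable {k : Type u} [Field k] {𝒱 : VarClass k} {C : TheoryData.{u, 0, 0} 𝒱 ℚ}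
  (U : CycleCohomology C) {X Y W : 𝒱.Obj} {c : ℕ} (hU : U.IsTheory c)

/-- The class of a sequence. -/
noncomputable def sq (m : ℕ → U.M X) : (corrData U hU).M X := (1 : ℚ) ⊗ₜ[ℤ] m

theorem sq_zero : sq U hU (0 : ℕ → U.M X) = 0 :=
  TensorProduct.tmul_zero (R := ℤ) (N := ℕ → U.M X) (1 : ℚ)

theorem sq_add (a b : ℕ → U.M X) : sq U hU (a + b) = sq U hU a + sq U hU b :=
  TensorProduct.tmul_add (R := ℤ) (1 : ℚ) a b

theorem sq_nsmul (n : ℕ) (a : ℕ → U.M X) : sq U hU (n • a) = (n : ℚ) • sq U hU a :=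
  one_tmul_nsmul n a

theorem sq_zsmul (n : ℤ) (a : ℕ → U.M X) : sq U hU (n • a) = (n : ℚ) • sq U hU a :=
  one_tmul_zsmul n a

theorem sq_den (x : (corrData U hU).M X) :
    ∃ n : ℕ, 0 < n ∧ ∃ a : ℕ → U.M X, (n : ℚ) • x = sq U hU a :=
  exists_den (N := ℕ → U.M X) x

theorem sq_torsion {a : ℕ → U.M X} (h : sq U hU a = 0) : ∃ n : ℕ, 0 < n ∧ n • a = 0 :=
  torsion_of_eq_zero (N := ℕ → U.M X) h

theorem act_sq (Δ : U.Z X Y) (m : ℕ → U.M X) :
    (corrData U hU).act (U.rat Δ) (sq U hU m) = sq U hU (seqAct U hU X Y Δ m) :=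
  act_rat U hU Δ m

theorem gr_eq (X : 𝒱.Obj) (i : ℤ) : (corrData U hU).gr X i =
    Submodule.span ℚ {x | ∃ m : ℕ → U.M X, (∀ n, m n ∈ U.gr X i) ∧ x = sq U hU m} := rfl

theorem sq_mem {i : ℤ} {m : ℕ → U.M X} (hm : ∀ n, m n ∈ U.gr X i) :
    sq U hU m ∈ (corrData U hU).gr X i := by
  rw [gr_eq]
  exact Submodule.subset_span ⟨m, hm, rfl⟩

/-- Elements of the graded pieces have a multiple which comes from a sequence. -/
theorem exists_seq {i : ℤ} {x : (corrData U hU).M X} (hx : x ∈ (corrData U hU).gr X i) :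
    ∃ n : ℕ, 0 < n ∧ ∃ m : ℕ → U.M X, (∀ l, m l ∈ U.gr X i) ∧ (n : ℚ) • x = sq U hU m := by
  rw [gr_eq] at hx
  refine Submodule.span_induction (p := fun x _ => ∃ n : ℕ, 0 < n ∧ ∃ m : ℕ → U.M X,
    (∀ l, m l ∈ U.gr X i) ∧ (n : ℚ) • x = sq U hU m) ?_ ?_ ?_ ?_ hx
  · rintro x ⟨m, hm, rfl⟩
    exact ⟨1, one_pos, m, hm, by simp⟩
  · exact ⟨1, one_pos, 0, fun l => (U.gr X i).zero_mem, by rw [sq_zero, smul_zero]⟩
  · rintro x y - - ⟨n, hn, a, ha, hax⟩ ⟨m, hm, b, hb, hby⟩
    refine ⟨n * m, Nat.mul_pos hn hm, m • a + n • b, fun l => ?_, ?_⟩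
    · exact (U.gr X i).add_mem ((U.gr X i).nsmul_mem (ha l) m) ((U.gr X i).nsmul_mem (hb l) n)
    · rw [sq_add, sq_nsmul, sq_nsmul, ← hax, ← hby, smul_smul, smul_smul, smul_add]
      push_cast
      rw [mul_comm (m : ℚ)]
  · rintro t x - ⟨n, hn, a, ha, hax⟩
    refine ⟨t.den * n, Nat.mul_pos t.den_pos hn, t.num • a, fun l => ?_, ?_⟩
    · exact (U.gr X i).zsmul_mem (ha l) _
    · rw [sq_zsmul, ← hax, smul_smul, smul_smul]
      congr 1
      push_cast
      have h2 := Rat.mul_den_eq_num t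
      rw [← h2]
      ring

theorem ext_seq {V : Type} [AddCommGroup V] [Module ℚ V] {f g : (corrData U hU).M X →ₗ[ℚ] V}
    (h : ∀ m : ℕ → U.M X, f (sq U hU m) = g (sq U hU m)) (x : (corrData U hU).M X) :
    f x = g x := by
  obtain ⟨n, hn, m, hm⟩ := sq_den U hU x
  have h1 := h m
  rw [← hm, map_smul, map_smul] at h1
  exact smul_right_injective _ (by positivity : (n : ℚ) ≠ 0) h1

/-- **The rational theory.** -/
theorem isCorrTheory : IsCorrTheory (corrData U hU) where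
  app_mem := by
    intro X Y i j Γ m hΓ hm
    obtain ⟨n, hn, Δ, hΔ, hdeg⟩ := hU.lattice.rat_exists Γ
    obtain ⟨l, hl, a, ha, hal⟩ := exists_seq U hU hm
    have key := sq_mem U hU (m := seqAct U hU X Y Δ a) (i := i + j)
      fun t => hU.action.act_mem (hdeg j hΓ) (ha t)
    rw [← act_sq, ← hal, hΔ, map_smul, map_smul, LinearMap.smul_apply, smul_smul] at key
    have h2 := Submodule.smul_mem _ ((l : ℚ) * n)⁻¹ key
    rw [smul_smul, inv_mul_cancel₀ (by positivity), one_smul] at h2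
    exact h2
  app_comp := by
    intro X Y Z Γ Δ m
    obtain ⟨n, hn, Γ', hΓ, -⟩ := hU.lattice.rat_exists Γ
    obtain ⟨n', hn', Δ', hΔ, -⟩ := hU.lattice.rat_exists Δ
    have h1 : C.comp (U.rat Γ') (U.rat Δ') = U.rat (U.comp Γ' Δ') := (hU.ratComp Γ' Δ').symm
    have h2 : C.comp (U.rat Γ') (U.rat Δ') = ((n : ℚ) * n') • C.comp Γ Δ := by
      rw [hΓ, hΔ, TheoryData.comp, TheoryData.comp, map_smul, map_smul, smul_mul_smul_comm,
        map_smul, mul_comm (n' : ℚ)]
    have h3 : (corrData U hU).act (C.comp (U.rat Γ') (U.rat Δ')) m =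
        (corrData U hU).act (U.rat Δ') ((corrData U hU).act (U.rat Γ') m) := by
      refine ext_seq U hU (f := (corrData U hU).act (C.comp (U.rat Γ') (U.rat Δ')))
        (g := (corrData U hU).act (U.rat Δ') ∘ₗ (corrData U hU).act (U.rat Γ')) (fun a => ?_) m
      rw [h1, LinearMap.comp_apply, act_sq, act_sq, act_sq]
      congr 1
      funext l
      exact hU.action.act_comp _ _ _
    rw [h2, hΓ, hΔ, map_smul, map_smul, map_smul, LinearMap.smul_apply, LinearMap.smul_apply,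
      LinearMap.smul_apply, map_smul, smul_smul, mul_comm (n : ℚ)] at h3
    have hne : (n' : ℚ) * n ≠ 0 := by positivity
    exact smul_right_injective _ hne h3
  app_id := by
    intro X m
    have h1 : C.graph (𝟙 X) = U.rat (U.graph (𝟙 X)) := (hU.graphs.rat_graph (𝟙 X)).symm
    refine ext_seq U hU (f := (corrData U hU).act (C.graph (𝟙 X))) (g := LinearMap.id)
      (fun a => ?_) m
    rw [h1, LinearMap.id_apply, act_sq]
    congr 1
    funext l
    exact hU.action.act_id _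

theorem actsAsPower {π : X ⟶ X} {Q : ℕ} (hπ : U.FrobeniusActs π Q) :
    ActsAsPower (corrData U hU) π Q := by
  intro i m hm
  rcases lt_or_ge i 0 with hi | hi
  · have h0 : U.gr X i = ⊥ := hU.vanish X i (by omega)
    obtain ⟨n, hn, a, ha, hax⟩ := exists_seq U hU hm
    have ha0 : a = 0 := by
      funext l
      have := ha l
      rw [h0] at this
      exact this
    rw [ha0, sq_zero] at hax
    have hm0 : m = 0 := (smul_eq_zero.1 hax).resolve_left (by positivity)
    rw [hm0]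
    change (corrData U hU).act (C.cograph π) 0 = (Q : ℚ) ^ i • 0
    rw [map_zero, smul_zero]
  · lift i to ℕ using hi
    obtain ⟨n, hn, a, ha, hax⟩ := exists_seq U hU hm
    have h1 : C.cograph π = U.rat (U.graph π) := (hU.graphs.rat_graph π).symm
    have h2 : (corrData U hU).act (C.cograph π) (sq U hU a) =
        (Q : ℚ) ^ (i : ℤ) • sq U hU a := by
      have h3 : seqAct U hU X X (U.graph π) a = (Q ^ i : ℕ) • a := by
        funext l
        exact hπ i (a l) (ha l)
      rw [h1, act_sq, h3, sq_nsmul]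
      push_cast
      rfl
    rw [← hax, map_smul, smul_comm] at h2
    exact smul_right_injective _ (by positivity : (n : ℚ) ≠ 0) h2

end Pool.Agent.T2h14.UC
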