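import Mathlib
import Pool.Agent.T2h14.UC.Thy
import Pool.Agent.T2h14.UC.Grp

/-!
# From the Kunneth formula to unramified cohomology
-/

set_option autoImplicit false
set_option linter.unusedSectionVars false

open CategoryTheory AlgebraicGeometry TensorProduct

universe u w

namespace Pool.Agent.T2h14.UC

open Polynomial Pool.Agent.H914 Pool.Agent.H914.VarClass Pool.Agent.H914.VarClass.Obj
  Pool.Agent.W492.BB Pool.Agent.W550.Corr Pool.Agent.W484.CH

variable {k : Type u} [Field k] {𝒱 : VarClass k} {C : TheoryData.{u, 0, 0} 𝒱 ℚ} [hC : IsChow C]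
  (U : CycleCohomology C) {X Y W Z : 𝒱.Obj} {c : ℕ} (hU : U.IsTheory c)

include hU in
theorem act_nsmul (Δ : U.Z X Y) (n : ℕ) (m : U.M X) : U.act Δ (n • m) = n • U.act Δ m := by
  rw [← actH_apply U hU, map_nsmul, actH_apply]

include hU in
theorem restrict_nsmul (f : X ⟶ Y) (n : ℕ) (m : U.M Y) :
    U.restrict f (n • m) = n • U.restrict f m := act_nsmul U hU _ n m

include hU in
theorem act_zero (Δ : U.Z X Y) : U.act Δ 0 = 0 := by
  rw [← actH_apply U hU, map_zero]

/-- A statement about all sequences gives a uniform bound. -/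
theorem uniform {P : ℕ → U.M X → Prop} {S : Set (U.M X)}
    (hP : ∀ (n m : ℕ) (x : U.M X), P n x → P (m * n) x)
    (h : ∀ x : ℕ → U.M X, (∀ l, x l ∈ S) → ∃ n : ℕ, 0 < n ∧ ∀ l, P n (x l)) :
    ∃ n : ℕ, 0 < n ∧ ∀ x ∈ S, P n x := by
  by_contra hcon
  push Not at hcon
  have h1 : ∀ n : ℕ, ∃ x ∈ S, ¬ P (n + 1).factorial x := fun n => hcon _ (Nat.factorial_pos _)
  choose x hxS hx using h1
  obtain ⟨n, hn, hP'⟩ := h x hxS
  obtain ⟨m, hm⟩ := Nat.dvd_factorial hn (Nat.le_succ n)
  refine hx n ?_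
  rw [hm, mul_comm]
  exact hP _ _ _ (hP' n)

include hC in
theorem extBy_one : extBy C Z (1 : C.A W) = C.cograph (snd W Z) := by
  rw [extBy, map_one]
  rfl

theorem extBy_smul (t : ℚ) (a : C.A W) : extBy C Z (t • a) = t • extBy C Z a := by
  rw [extBy, extBy, map_smul, map_smul]

include hC in
theorem red_left {J : Type} [Fintype J] {deg : J → ℕ} {D E : J → C.A W}
    (hdual : IsDual W Z deg D E) (hzero : ∀ z : C.A W, z ∈ C.gr W 0 → ∃ t : ℚ, z = t • 1)
    (hK : ∀ m : (corrData U hU).M (W.prod Z), m ∈ (corrData U hU).gr (W.prod Z) c →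
      m = ∑ j, (corrData U hU).act (extBy C Z (D j)) ((corrData U hU).act (pairBy C Z (E j)) m)) :
    ∃ N : ℕ, 0 < N ∧ ∀ x ∈ U.Unr c (W.prod Z), ∃ y ∈ U.Unr c Z,
      N • x = U.restrict (snd W Z) y := by
  refine uniform U (P := fun N x => ∃ y ∈ U.Unr c Z, N • x = U.restrict (snd W Z) y)
    (S := U.Unr c (W.prod Z)) ?_ ?_
  · rintro n m x ⟨y, hy, hxy⟩
    exact ⟨m • y, (U.Unr c Z).nsmul_mem hy m, by rw [mul_smul, hxy, restrict_nsmul U hU]⟩
  · intro x hx
    have h1 := hK _ (sq_mem U hU (i := c) hx)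
    -- the pull-back
    have h2 : ∃ y ∈ (corrData U hU).gr Z c,
        sq U hU x = (corrData U hU).act (C.cograph (snd W Z)) y := by
      have h3 : ∀ j, ∃ y ∈ (corrData U hU).gr Z c, (corrData U hU).act (extBy C Z (D j))
          ((corrData U hU).act (pairBy C Z (E j)) (sq U hU x)) =
            (corrData U hU).act (C.cograph (snd W Z)) y := by
        intro j
        have h4 : (corrData U hU).act (pairBy C Z (E j)) (sq U hU x) ∈
            (corrData U hU).gr Z ((c : ℤ) + -(deg j : ℤ)) :=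
          (isCorrTheory U hU).act_mem (pairBy_mem (hdual.right j)) (sq_mem U hU (i := c) hx)
        rcases Nat.eq_zero_or_pos (deg j) with hj | hj
        · obtain ⟨t, ht⟩ := hzero (D j) (by
            have := hdual.left j
            rw [hj] at this
            exact this)
          rw [hj, Nat.cast_zero, neg_zero, add_zero] at h4
          refine ⟨t • (corrData U hU).act (pairBy C Z (E j)) (sq U hU x),
            Submodule.smul_mem _ _ h4, ?_⟩
          rw [ht, extBy_smul, extBy_one, map_smul, LinearMap.smul_apply, map_smul]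
        · refine ⟨0, Submodule.zero_mem _, ?_⟩
          have h5 : (corrData U hU).act (pairBy C Z (E j)) (sq U hU x) = 0 := by
            obtain ⟨n, hn, a, ha, hax⟩ := exists_seq U hU h4
            have ha0 : a = 0 := by
              funext l
              have := ha l
              rw [hU.vanish Z _ (by omega)] at this
              exact this
            rw [ha0, sq_zero] at hax
            exact (smul_eq_zero.1 hax).resolve_left (by positivity)
          rw [h5, map_zero, map_zero]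
      choose y hy hy' using h3
      refine ⟨∑ j, y j, Submodule.sum_mem _ fun j _ => hy j, ?_⟩
      rw [map_sum]
      exact h1.trans (Finset.sum_congr rfl fun j _ => hy' j)
    obtain ⟨y, hy, hxy⟩ := h2
    obtain ⟨n, hn, a, ha, hay⟩ := exists_seq U hU hy
    have h3 : C.cograph (snd W Z) = U.rat (U.graph (snd W Z)) := (hU.graphs.rat_graph (snd W Z)).symm
    have h4 : sq U hU (n • x - seqAct U hU Z (W.prod Z) (U.graph (snd W Z)) a) = 0 := by
      rw [sub_eq_add_neg, ← neg_one_zsmul, sq_add, sq_zsmul, sq_nsmul, ← act_sq, ← h3, hxy,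
        ← hay, map_smul]
      push_cast
      rw [neg_one_smul, add_neg_cancel]
    obtain ⟨m, hm, h5⟩ := sq_torsion U hU h4
    refine ⟨m * n, Nat.mul_pos hm hn, fun l => ⟨m • a l, (U.Unr c Z).nsmul_mem (ha l) m, ?_⟩⟩
    have h6 := congrFun h5 l
    rw [Pi.smul_apply, Pi.sub_apply, smul_sub, Pi.zero_apply, sub_eq_zero, seqAct_apply,
      Pi.smul_apply, smul_smul] at h6
    rw [h6, restrict_nsmul U hU]
    rfl

include hC hU in
theorem red_right (W Z : 𝒱.Obj) : ∃ N : ℕ, 0 < N ∧ ∀ y : U.M Z,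
    U.restrict (snd W Z) y = 0 → N • y = 0 := by
  obtain ⟨a, -, -, ha⟩ := hC.exists_deg_one W
  have h1 : C.comp (C.cograph (snd W Z)) (pairBy C Z a) = dg C Z := by
    rw [← extBy_one, comp_extBy_pairBy C a 1 (chow_mul_comm _ _) 1 (by
      rw [one_mul, one_smul]
      exact ha Z), one_smul]
  obtain ⟨n, hn, Δ, hΔ, -⟩ := hU.lattice.rat_exists (pairBy C Z a)
  have h2 : U.rat (U.comp (U.graph (snd W Z)) Δ - n • U.graph (𝟙 Z)) = 0 := by
    rw [← ratH_apply U hU, map_sub, map_nsmul, ratH_apply, ratH_apply, hU.ratComp,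
      hU.graphs.rat_graph, hU.graphs.rat_graph, hΔ, sub_eq_zero]
    have h3 : Pool.Agent.W484.CK.compose C (C.down (Obj.lift (snd W Z) (𝟙 _)) 1) ((n : ℚ) • pairBy C Z a) =
        (n : ℚ) • C.comp (C.cograph (snd W Z)) (pairBy C Z a) := by
      change C.comp (C.cograph (snd W Z)) ((n : ℚ) • pairBy C Z a) = _
      rw [TheoryData.comp, TheoryData.comp, map_smul, smul_mul_assoc, map_smul]
    rw [h3, h1, Nat.cast_smul_eq_nsmul]
    rfl
  obtain ⟨m, hm, h3⟩ := hU.lattice.rat_torsion _ h2
  refine ⟨m * n, Nat.mul_pos hm hn, fun y hy => ?_⟩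
  have h4 : U.act (m • (U.comp (U.graph (snd W Z)) Δ - n • U.graph (𝟙 Z))) y = 0 := by
    rw [h3, ← actH_apply U hU, map_zero, AddMonoidHom.zero_apply]
  rw [← actH_apply U hU, map_nsmul, map_sub, map_nsmul, AddMonoidHom.nsmul_apply,
    AddMonoidHom.sub_apply, AddMonoidHom.nsmul_apply, actH_apply, actH_apply,
    hU.action.act_comp] at h4
  have h5 : U.act (U.graph (snd W Z)) y = 0 := hy
  have h6 : U.act (U.graph (𝟙 Z)) y = y := hU.action.act_id y
  rw [h5, act_zero U hU, h6, zero_sub, smul_neg, neg_eq_zero, smul_smul] at h4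
  exact h4

include hC hU in
/-- **The reduction.** -/
theorem reduces {J : Type} [Fintype J] {deg : J → ℕ} {D E : J → C.A W}
    (hdual : IsDual W Z deg D E) (hzero : ∀ z : C.A W, z ∈ C.gr W 0 → ∃ t : ℚ, z = t • 1)
    (hK : ∀ m : (corrData U hU).M (W.prod Z), m ∈ (corrData U hU).gr (W.prod Z) c →
      m = ∑ j, (corrData U hU).act (extBy C Z (D j)) ((corrData U hU).act (pairBy C Z (E j)) m)) :
    UnramifiedReduces U c W Z := by
  obtain ⟨N, hN, h1⟩ := red_left U hU hdual hzero hK
  obtain ⟨N', hN', h2⟩ := red_right U hU W Z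
  -- the pull-back of an unramified class
  have hmem : ∀ y ∈ U.Unr c Z, U.restrict (snd W Z) y ∈ U.Unr c (W.prod Z) := by
    intro y hy
    have h3 := hU.action.act_mem (hU.graphs.graph_mem (snd W Z)) hy
    rw [add_zero] at h3
    exact h3
  refine ⟨⟨N * N', Nat.mul_pos hN hN', fun x hx => ?_, fun y hy hy0 => ?_⟩, fun hs hs' => ?_⟩
  · obtain ⟨y, hy, hxy⟩ := h1 x hx
    refine ⟨N' • y, (U.Unr c Z).nsmul_mem hy _, ?_⟩
    rw [mul_comm, mul_smul, hxy, restrict_nsmul U hU]
  · rw [mul_smul, h2 y hy0, smul_zero]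
  · constructor
    · intro hfin
      refine finite_of_bounded hs' (N := N' * Nat.card (U.Unr c (W.prod Z)))
        (Nat.mul_pos hN' Nat.card_pos) ?_
      rintro ⟨y, hy⟩
      apply Subtype.ext
      change (N' * Nat.card (U.Unr c (W.prod Z))) • y = 0
      rw [mul_smul]
      refine h2 _ ?_
      rw [restrict_nsmul U hU]
      have h5 := card_nsmul_eq_zero' (x := (⟨_, hmem y hy⟩ : U.Unr c (W.prod Z)))
      exact congrArg Subtype.val h5
    · intro hfin
      refine finite_of_bounded hs (N := Nat.card (U.Unr c Z) * N)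
        (Nat.mul_pos Nat.card_pos hN) ?_
      rintro ⟨x, hx⟩
      apply Subtype.ext
      change (Nat.card (U.Unr c Z) * N) • x = 0
      obtain ⟨y, hy, hxy⟩ := h1 x hx
      rw [mul_smul, hxy, ← restrict_nsmul U hU]
      have h5 := card_nsmul_eq_zero' (x := (⟨y, hy⟩ : U.Unr c Z))
      have h6 : Nat.card (U.Unr c Z) • y = 0 := congrArg Subtype.val h5
      rw [h6]
      exact act_zero U hU _

end Pool.Agent.T2h14.UC
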