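import Mathlib
import Pool.Agent.T2h14.UC.AbStm
import Pool.Agent.T2h14.UC.Red
import Pool.Agent.T2h14.NR.Fin
import Pool.Agent.T2h14.NR.Bridge
import Pool.Agent.Y154.BQ.Fin

/-!
# Unramified cohomology of products with abelian varieties
-/

set_option autoImplicit false
set_option linter.unusedSectionVars false

open CategoryTheory AlgebraicGeometry

namespace Pool.Agent.T2h14.UC

open Module Polynomial Pool.Agent.H914 Pool.Agent.H914.VarClass Pool.Agent.H914.VarClass.Obj
  Pool.Agent.W492.BB Pool.Agent.W521.Descent Pool.Agent.W521.Count Pool.Agent.W484.TB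
  Pool.Agent.W484.CK Pool.Agent.W484 Pool.Agent.W484.HS Pool.Agent.W521.Frob Pool.Agent.W521.Density

/-- The explicit criterion. -/
theorem unramified_of {I : Type} {f : I → ℤ[X]} (hm : ∀ i, (f i).Monic)
    (E : IntermediateField ℚ ℂ) {q : ℕ} (hq : 1 < q) (r : ℕ)
    (hno : Pool.Agent.T2h14.NR.NoRelations E q r f) : UnramifiedForRankOver E q r f := by
  intro k _ 𝒱 C _ K _ _ _ H _ s A Z πA πZ hsit c U hU hF
  obtain ⟨J, hJ, deg, D, E', hdual, hD, hK⟩ := Pool.Agent.T2h14.NR.kunneth_main hm E hq r hno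
    (isStandard_bridge hsit.standard) hsit.pos (isAbelian_bridge hsit.abelian)
    (πZ := πZ) hsit.rank (nilpotence_bridge hsit.nilpotence)
  exact reduces U hU hdual (fun z hz => hsit.standard.chow_zero A z hz)
    fun m hm => hK (corrData U hU) (isCorrTheory U hU) (actsAsPower U hU hF) c m hm

/-- Almost all families. -/
theorem unramified_of_good {I : Type} [Finite I] (g : I → ℕ) (E : IntermediateField ℚ ℂ)
    [FiniteDimensional ℚ E] {q : ℕ} (hq : 1 < q) (r : ℕ) (hr : ∀ i, r < g i)
    (x : (Σ i, Fin (g i)) → ℤ) (hx : GoodU (splitPrimes E) g q x) :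
    UnramifiedForRankOver E q r (fun i => weil q (polys g x i)) := by
  intro k _ 𝒱 C _ K _ _ _ H _ s A Z πA πZ hsit c U hU hF
  obtain ⟨J, hJ, deg, D, E', hdual, hD, hK⟩ := CH.kunneth_main g E hq r hr x hx
    (isStandard_bridge hsit.standard) hsit.pos (isAbelian_bridge hsit.abelian)
    (πZ := πZ) hsit.rank (nilpotence_bridge hsit.nilpotence)
  exact reduces U hU hdual (fun z hz => hsit.standard.chow_zero A z hz)
    fun m hm => hK (corrData U hU) (isCorrTheory U hU) (actsAsPower U hU hF) c m hm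

end Pool.Agent.T2h14.UC
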