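import Mathlib
import Pool.Agent.T2h14.UC.Stm

/-!
# Unramified cohomology of products: the general situation
-/

set_option autoImplicit false

open CategoryTheory AlgebraicGeometry

universe u v w

namespace Pool.Agent.T2h14.UC

open Polynomial Pool.Agent.H914 Pool.Agent.H914.VarClass Pool.Agent.H914.VarClass.Obj
  Pool.Agent.W492.BB Pool.Agent.W484.CK

variable {k : Type u} [Field k] {𝒱 : VarClass k} {C : TheoryData.{u, v, 0} 𝒱 ℚ} {K : Type w}
  [Field K] (H : WeilTheoryData.{u, v, w} C K) {X W Z : 𝒱.Obj}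

/-- The theorem of Deligne for the endomorphism `π` of `X` (the Frobenius endomorphism relative to the
field with `Q` elements): the eigenvalues on `H^i(X)` are algebraic numbers all of whose complex
conjugates have absolute value `Q ^ (i / 2)`. -/
def IsPure [CharZero K] (π : X ⟶ X) (Q : ℕ) : Prop :=
  ∀ (i : ℕ) (a : H.A X) (α : K), H.Deg i a → a ≠ 0 → H.up π a = α • a →
    ∃ χ : ℚ[X], χ ≠ 0 ∧ aeval α χ = 0 ∧ ∀ z : ℂ, aeval z χ = 0 → ‖z‖ ^ 2 = (Q : ℝ) ^ i

/-- Frobenius is semisimple on the cohomology of `W`, and Tate's conjecture holds for `W` in the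
codimensions `l ≤ c`, and `l ≥ dim W - c`: the classes in `H^(2 l)(W)` on which Frobenius acts as
multiplication by `Q ^ l` are linear combinations of classes of algebraic cycles of codimension `l`.
(By the hard Lefschetz theorem it is enough to know this for `l ≤ c`.) -/
structure SatisfiesTate (π : W ⟶ W) (Q c : ℕ) : Prop where
  semisimple : ∀ a : H.A W,
    InSpan H (fun b => ∃ (i : ℕ) (α : K), H.Deg i b ∧ H.up π b = α • b) a
  algebraic : ∀ l : ℕ, l ≤ c ∨ W.dim ≤ l + c → ∀ a : H.A W, H.Deg (2 * l) a →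
    H.up π a = (Q : K) ^ l • a → InSpan H (fun b => ∃ z : C.A W, C.Deg l z ∧ b = H.cl z) a

/-- No eigenvalue `α` of Frobenius on `H^i(W)`, except `α = Q ^ (i / 2)`, and no eigenvalue `β` on
`H^j(Z)`, where `i + j = 2 c`, have the product `Q ^ c`. -/
def NoExchange (πW : W ⟶ W) (πZ : Z ⟶ Z) (Q c : ℕ) : Prop :=
  ∀ (i j : ℕ) (a : H.A W) (b : H.A Z) (α β : K), i + j = 2 * c → H.Deg i a → H.Deg j b →
    a ≠ 0 → b ≠ 0 → H.up πW a = α • a → H.up πZ b = β • b → α * β = (Q : K) ^ c →
      ∃ l : ℕ, i = 2 * l ∧ α = (Q : K) ^ l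

/-- The situation of the theorem: `πW` and `πZ` are the Frobenius endomorphisms of the varieties `W`
and `Z` over the field with `Q` elements; Frobenius is semisimple on the cohomology of `W`, which
satisfies Tate's conjecture in codimensions `≤ c`; `NoExchange` in degree `2 c`; and the homologically
trivial self-correspondences of `W × Z` are nilpotent. -/
structure IsSituation [CharZero K] (πW : W ⟶ W) (πZ : Z ⟶ Z) (Q c : ℕ) : Prop where
  one_lt : 1 < Q
  standard : IsStandard H
  frobenius : IsFrobenius C πW Q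
  pure_left : IsPure H πW Q
  pure_right : IsPure H πZ Q
  tate : SatisfiesTate H πW Q c
  noExchange : NoExchange H πW πZ Q c
  nilpotence : Nilpotence H (W.prod Z)

end Pool.Agent.T2h14.UC
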