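import Mathlib
import Pool.Agent.T2h14.UC.Stm2
import Pool.Agent.T2h14.UC.Red
import Pool.Agent.T2h14.UC.Dual

/-!
# Unramified cohomology of products: the general theorem
-/

set_option autoImplicit false
set_option linter.unusedSectionVars false

open CategoryTheory AlgebraicGeometry

universe u v w

namespace Pool.Agent.T2h14.UC

open Module Polynomial Pool.Agent.H914 Pool.Agent.H914.VarClass Pool.Agent.H914.VarClass.Obj
  Pool.Agent.W492.BB Pool.Agent.W550.Corr Pool.Agent.W484.TB Pool.Agent.W484 Pool.Agent.T2h14.PW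

variable {k : Type u} [Field k] {𝒱 : VarClass k} {C : TheoryData.{u, v, 0} 𝒱 ℚ} {K : Type w}
  [Field K] [CharZero K] {H : WeilTheoryData.{u, v, w} C K} [hC : IsChow C] [hH : IsWeil H]
  {X W Z : 𝒱.Obj}

section homog

omit [CharZero K]

/-- An eigenvalue occurs on a homogeneous eigenvector. -/
theorem exists_homog (π : Z ⟶ Z) {v : H.A Z} (hv : v ≠ 0) {ρ : K} (h : H.pull π v = ρ • v) :
    ∃ (j : ℕ) (a : H.A Z), a ≠ 0 ∧ a ∈ H.gr Z j ∧ H.pull π a = ρ • a := by
  classical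
  letI := (H.isInternal Z).chooseDecomposition
  -- the projections
  have hcomm : ∀ (i : ℤ) (x : H.A Z), H.pull π (DirectSum.decompose (H.gr Z) x i : H.A Z) =
      (DirectSum.decompose (H.gr Z) (H.pull π x) i : H.A Z) := by
    intro i x
    refine CH.homog_induction H.toTheoryData (p := fun x => H.pull π
      (DirectSum.decompose (H.gr Z) x i : H.A Z) =
      (DirectSum.decompose (H.gr Z) (H.pull π x) i : H.A Z)) ?_ ?_ x
    · intro j a ha
      by_cases hij : j = i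
      · subst hij
        rw [DirectSum.decompose_of_mem_same _ ha, DirectSum.decompose_of_mem_same _ (H.pull_mem π ha)]
      · rw [DirectSum.decompose_of_mem_ne _ ha hij,
          DirectSum.decompose_of_mem_ne _ (H.pull_mem π ha) hij, map_zero]
    · intro a b ha hb
      rw [map_add (H.pull π) a b, DirectSum.decompose_add, DirectSum.decompose_add,
        DirectSum.add_apply, DirectSum.add_apply, Submodule.coe_add, Submodule.coe_add, map_add, ha,
        hb]
  obtain ⟨i, hi⟩ : ∃ i, (DirectSum.decompose (H.gr Z) v i : H.A Z) ≠ 0 := by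
    by_contra hcon
    push Not at hcon
    apply hv
    rw [← DirectSum.sum_support_decompose (H.gr Z) v]
    exact Finset.sum_eq_zero fun i _ => hcon i
  have hi0 : 0 ≤ i := by
    by_contra hneg
    have h1 : ∀ x : H.A Z, x ∈ H.gr Z i → x = 0 := by
      intro x hx
      rw [H.gr_neg Z i (by omega), Submodule.mem_bot] at hx
      exact hx
    exact hi (h1 _ (DirectSum.decompose (H.gr Z) v i).2)
  lift i to ℕ using hi0
  refine ⟨i, _, hi, (DirectSum.decompose (H.gr Z) v i).2, ?_⟩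
  rw [hcomm, h]
  have h2 : DirectSum.decompose (H.gr Z) (ρ • v) = ρ • DirectSum.decompose (H.gr Z) v :=
    DirectSum.decompose_smul _ ρ v
  rw [h2]
  rfl

end homog

section embed

variable {α β : K}

/-- Algebraic numbers in `K` and their complex conjugates. -/
theorem exists_embed {χ χ' : ℚ[X]} (hχ : χ ≠ 0) (hα : aeval α χ = 0) (hχ' : χ' ≠ 0)
    (hβ : aeval β χ' = 0) (Q : ℕ) (n : ℕ) (h : α * β = (Q : K) ^ n) :
    ∃ z z' : ℂ, aeval z χ = 0 ∧ aeval z' χ' = 0 ∧ z * z' = (Q : ℂ) ^ n := by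
  have hmem : ∀ (z : K) (p : ℚ[X]), p ≠ 0 → aeval z p = 0 → z ∈ algebraicClosure ℚ K := by
    intro z p hp hz
    rw [mem_algebraicClosure_iff]
    exact ⟨p, hp, hz⟩
  have halg : Algebra.IsAlgebraic ℚ (algebraicClosure ℚ K) := algebraicClosure.isAlgebraic ℚ K
  let j : algebraicClosure ℚ K →ₐ[ℚ] ℂ := IsAlgClosed.lift
  have hroot : ∀ (z : K) (p : ℚ[X]) (hp : p ≠ 0) (hz : aeval z p = 0),
      aeval (j ⟨z, hmem z p hp hz⟩) p = 0 := by
    intro z p hp hz
    rw [Polynomial.aeval_algHom_apply]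
    have h1 : aeval (⟨z, hmem z p hp hz⟩ : algebraicClosure ℚ K) p = 0 := by
      apply (algebraMap (algebraicClosure ℚ K) K).injective
      rw [← Polynomial.aeval_algebraMap_apply, map_zero]
      exact hz
    rw [h1, map_zero]
  refine ⟨_, _, hroot α χ hχ hα, hroot β χ' hχ' hβ, ?_⟩
  rw [← map_mul]
  have h1 : (⟨α, hmem α χ hχ hα⟩ * ⟨β, hmem β χ' hχ' hβ⟩ : algebraicClosure ℚ K) =
      ((Q : algebraicClosure ℚ K)) ^ n := by
    apply (algebraMap (algebraicClosure ℚ K) K).injective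
    rw [map_mul, map_pow, map_natCast]
    exact h
  rw [h1, map_pow, map_natCast]

end embed

/-- **The Kunneth formula in degree `c`**, for a basis of eigenvectors. -/
theorem kunneth_basis [IsAlgClosed K] {πW : W ⟶ W} {πZ : Z ⟶ Z} {Q c : ℕ} (hS : CH.IsStandard H)
    (hQ : 1 < Q) (hπW : CH.IsFrobenius C πW Q) {r : ℕ} (b : Basis (Fin r) K (H.A W))
    (α : Fin r → K) (hb : ∀ t, H.pull πW (b t) = α t • b t) (hα : ∀ t, IsIntegral ℚ (α t))
    (hZ : ∀ (ρ : K) (v : H.A Z), v ≠ 0 → H.pull πZ v = ρ • v → IsIntegral ℚ ρ)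
    (htop : ∀ n ≤ c, n ≤ W.dim → ∀ t, α t = (Q : K) ^ (W.dim - n) → b t ∈ GK H W (W.dim - n))
    (hmix : ∀ t (ρ : K) (v : H.A Z), v ≠ 0 → H.pull πZ v = ρ • v → α t * ρ = (Q : K) ^ (c : ℤ) →
      ∃ n ≤ c, b t ∈ GK H W n) (hnil : CH.Nilpotence H (W.prod Z)) :
    ∃ (J : Type) (_ : Fintype J) (deg : J → ℕ) (D E : J → C.A W), CH.IsDual W Z deg D E ∧
      ∀ T : CH.CorrData C, CH.IsCorrTheory T → CH.ActsAsPower T (prodMap πW πZ) Q →
        ∀ (m : T.M (W.prod Z)), m ∈ T.gr (W.prod Z) c →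
          m = ∑ j, T.act (CH.extBy C Z (D j)) (T.act (CH.pairBy C Z (E j)) m) := by
  obtain ⟨J, hJ, deg, D, E', hdual, hN⟩ := exists_dual_le hπW hQ b α hb hS Z c htop
  refine ⟨J, hJ, deg, D, E', hdual, fun T hT hπ m hm => ?_⟩
  have hfinX : Module.Finite K (H.A (W.prod Z)) := hS.finite _
  obtain ⟨P, hP, m', hPm⟩ := CH.exists_poly (CH.frob H (prodMap πW πZ)) ((Q : ℚ) ^ (c : ℤ)) (by
    intro μ v hv0 hv
    exact CH.integral_eigen hS b α hb hα hZ μ v hv0 hv)
  refine CH.kunneth_core hdual hT hπ hnil c P hP ?_ hm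
  intro w
  apply act_proj_mixC hdual c hN
  rw [CH.act_cl_polyC]
  refine mem_mixC (πZ := πZ) hS b α hb (Q := Q) (by omega) c c hmix m' _ ?_
  have h2 := hPm w
  push_cast at h2 ⊢
  exact h2

variable {πW : W ⟶ W} {πZ : Z ⟶ Z} {Q c : ℕ} (h : IsSituation H πW πZ Q c)

include h

/-- The degrees of eigenvectors. -/
theorem degree_eq {i j : ℕ} {a : H.A W} {b : H.A Z} {α β : K} (ha : H.Deg i a) (hb : H.Deg j b)
    (ha0 : a ≠ 0) (hb0 : b ≠ 0) (hα : H.up πW a = α • a) (hβ : H.up πZ b = β • b)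
    (hαβ : α * β = (Q : K) ^ c) : i + j = 2 * c := by
  obtain ⟨χ, hχ, h1, h2⟩ := h.pure_left i a α ha ha0 hα
  obtain ⟨χ', hχ', h3, h4⟩ := h.pure_right j b β hb hb0 hβ
  obtain ⟨z, z', hz, hz', hzz⟩ := exists_embed hχ h1 hχ' h3 Q c hαβ
  have h5 : ‖z‖ ^ 2 * ‖z'‖ ^ 2 = (Q : ℝ) ^ (2 * c) := by
    rw [← mul_pow, ← norm_mul, hzz, norm_pow, Complex.norm_natCast, ← pow_mul, mul_comm]
  rw [h2 z hz, h4 z' hz', ← pow_add] at h5
  exact pow_right_injective₀ (by exact_mod_cast h.one_lt.le.trans_lt' one_pos)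
    (by exact_mod_cast h.one_lt.ne') h5

/-- The eigenvalues which are powers of `Q`. -/
theorem power_eq {i : ℕ} {a : H.A W} {α : K} (ha : H.Deg i a) (ha0 : a ≠ 0)
    (hα : H.up πW a = α • a) {e : ℤ} (he : α = (Q : K) ^ e) :
    ∃ l : ℕ, i = 2 * l ∧ α = (Q : K) ^ l := by
  obtain ⟨χ, hχ, h1, h2⟩ := h.pure_left i a α ha ha0 hα
  have hQ : (1 : ℝ) < Q := by exact_mod_cast h.one_lt
  have h3 : aeval (((Q : ℚ) ^ e : ℚ) : K) χ = 0 := by
    rw [he] at h1
    push_cast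
    exact h1
  have h4 : aeval (((Q : ℚ) ^ e : ℚ) : ℂ) χ = 0 := by
    have h5 : aeval ((Q : ℚ) ^ e) χ = 0 := by
      have h6 : ((algebraMap ℚ K) (aeval ((Q : ℚ) ^ e) χ)) = 0 := by
        rw [← Polynomial.aeval_algebraMap_apply]
        exact h3
      exact (map_eq_zero_iff _ (algebraMap ℚ K).injective).1 h6
    have h6 := congrArg (algebraMap ℚ ℂ) h5
    rw [← Polynomial.aeval_algebraMap_apply, map_zero] at h6
    exact h6
  have h5 := h2 _ h4
  have h6 : ‖((((Q : ℚ) ^ e : ℚ)) : ℂ)‖ = (Q : ℝ) ^ e := by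
    push_cast
    rw [norm_zpow, Complex.norm_natCast]
  rw [h6, ← zpow_natCast, ← zpow_mul, ← zpow_natCast (Q : ℝ) i] at h5
  have h7 := zpow_right_injective₀ (by linarith) hQ.ne' h5
  have h8 : 0 ≤ e := by
    push_cast at h7
    omega
  lift e to ℕ using h8
  refine ⟨e, by push_cast at h7; omega, by rw [he, zpow_natCast]⟩

/-- **The Kunneth formula in degree `c`.** -/
theorem kunneth_at [IsAlgClosed K] :
    ∃ (J : Type) (_ : Fintype J) (deg : J → ℕ) (D E : J → C.A W), CH.IsDual W Z deg D E ∧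
      ∀ T : CH.CorrData C, CH.IsCorrTheory T → CH.ActsAsPower T (prodMap πW πZ) Q →
        ∀ (m : T.M (W.prod Z)), m ∈ T.gr (W.prod Z) c →
          m = ∑ j, T.act (CH.extBy C Z (D j)) (T.act (CH.pairBy C Z (E j)) m) := by
  have hS := Pool.Agent.W484.CK.isStandard_bridge h.standard
  have hfin := hS.finite W
  obtain ⟨b₀, hb₀, hspan, hli⟩ := Submodule.exists_fun_fin_finrank_span_eq K
    {b : H.A W | ∃ (i : ℕ) (α : K), H.Deg i b ∧ H.up πW b = α • b}
  have hspan' : Submodule.span K (Set.range b₀) = ⊤ := by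
    rw [hspan, eq_top_iff]
    intro a _
    exact h.tate.semisimple a
  let b := Basis.mk hli (by rw [hspan'])
  have hbt : ∀ t, b t = b₀ t := fun t => by rw [Basis.mk_apply]
  choose i α hi hα using hb₀
  have hb : ∀ t, H.pull πW (b t) = α t • b t := fun t => by rw [hbt]; exact hα t
  have hb0 : ∀ t, b₀ t ≠ 0 := fun t => hli.ne_zero t
  have hmemGK : ∀ t (l : ℕ), (l ≤ c ∨ W.dim ≤ l + c) → i t = 2 * l → α t = (Q : K) ^ l →
      b t ∈ GK H W l := by
    intro t l hlc h1 h2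
    rw [hbt]
    have h3 : Pool.Agent.W484.CK.InSpan H (fun b => ∃ z : C.A W, C.Deg l z ∧ b = H.cl z) (b₀ t) := by
      refine h.tate.algebraic l hlc (b₀ t) ?_ (by rw [← h2]; exact hα t)
      have h4 := hi t
      rw [h1] at h4
      push_cast at h4
      exact h4
    exact h3
  have hαint : ∀ t, IsIntegral ℚ (α t) := by
    intro t
    obtain ⟨χ, hχ, h1, -⟩ := h.pure_left (i t) (b₀ t) (α t) (hi t) (hb0 t) (hα t)
    exact isAlgebraic_iff_isIntegral.1 ⟨χ, hχ, h1⟩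
  have hone : 1 < Q := h.one_lt
  have htop : ∀ n ≤ c, n ≤ W.dim → ∀ t, α t = (Q : K) ^ (W.dim - n) →
      b t ∈ GK H W (W.dim - n) := by
    intro n hn hnd t ht
    obtain ⟨l, hl, hl'⟩ := power_eq h (hi t) (hb0 t) (hα t) (e := ((W.dim - n : ℕ) : ℤ))
      (by rw [zpow_natCast]; exact ht)
    have h2 : l = W.dim - n := by
      have h3 : ((Q ^ l : ℕ) : K) = ((Q ^ (W.dim - n) : ℕ) : K) := by
        push_cast
        rw [← hl', ht]
      exact Nat.pow_right_injective hone (Nat.cast_injective h3)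
    exact hmemGK t _ (Or.inr (by omega)) (by rw [hl, h2]) ht
  have hZ : ∀ (ρ : K) (v : H.A Z), v ≠ 0 → H.pull πZ v = ρ • v → IsIntegral ℚ ρ := by
    intro ρ v hv0 hv
    obtain ⟨j, a, ha0, ha, ha'⟩ := exists_homog πZ hv0 hv
    obtain ⟨χ, hχ, h2, -⟩ := h.pure_right j a ρ ha ha0 ha'
    exact isAlgebraic_iff_isIntegral.1 ⟨χ, hχ, h2⟩
  have hmix : ∀ t (ρ : K) (v : H.A Z), v ≠ 0 → H.pull πZ v = ρ • v → α t * ρ = (Q : K) ^ (c : ℤ) →
      ∃ n ≤ c, b t ∈ GK H W n := by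
    intro t ρ v hv0 hv hc
    rw [zpow_natCast] at hc
    obtain ⟨j, a, ha0, ha, ha'⟩ := exists_homog πZ hv0 hv
    have h2 := degree_eq h (hi t) ha (hb0 t) ha0 (hα t) ha' hc
    obtain ⟨l, hl, hl'⟩ := h.noExchange (i t) j (b₀ t) a (α t) ρ h2 (hi t) ha (hb0 t) ha0 (hα t)
      ha' hc
    exact ⟨l, by omega, hmemGK t l (Or.inl (by omega)) hl hl'⟩
  exact kunneth_basis hS hone (Pool.Agent.W484.CK.isFrobenius_bridge h.frobenius) b α hb hαint hZ
    htop hmix (Pool.Agent.W484.CK.nilpotence_bridge h.nilpotence)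

end Pool.Agent.T2h14.UC
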