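import Mathlib
import Pool.Agent.T2h14.UC.Stm2
import Pool.Agent.T2h14.PW.Stm

/-!
# Unramified cohomology of products with varieties with simple Frobenius: statements
-/

set_option autoImplicit false

open CategoryTheory AlgebraicGeometry

universe u v w

namespace Pool.Agent.T2h14.UC.Simple

open Polynomial Pool.Agent.H914 Pool.Agent.H914.VarClass Pool.Agent.H914.VarClass.Obj
  Pool.Agent.W492.BB Pool.Agent.W484.CK Pool.Agent.T2h14.PW.Stm

variable {k : Type u} [Field k] {𝒱 : VarClass k} {C : TheoryData.{u, v, 0} 𝒱 ℚ} {K : Type w}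
  [Field K] (H : WeilTheoryData.{u, v, w} C K) {X W Z : 𝒱.Obj}

/-- `a` is the class of an algebraic cycle with rational coefficients. -/
def IsClass (a : H.A X) : Prop := ∃ (l : ℕ) (z : C.A X), C.Deg l z ∧ a = H.cl z

/-- The Frobenius endomorphism `π` of `X`, relative to the field with `Q` elements, is simple in the
middle degree `dim X`, with the set `S` of transcendental eigenvalues: the cohomology is spanned by the
classes of algebraic cycles and by eigenvectors of Frobenius in the middle degree with eigenvalues in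
`S`, which are not powers of `Q`, and the eigenspaces for the eigenvalues in `S` have dimension at most
one. For example, `X` is a K3 surface and `S` the set of the eigenvalues on the transcendental part
of `H^2(X)`, if they are simple; or `X` is a hypersurface or a complete intersection. -/
structure IsSimple (π : X ⟶ X) (Q : ℕ) (S : Set K) : Prop where
  frobenius : IsFrobenius C π Q
  spanned : ∀ c : H.A X,
    InSpan H (fun a => IsClass H a ∨ (H.Deg X.dim a ∧ ∃ α ∈ S, H.up π a = α • a)) c
  simple : ∀ α ∈ S, ∀ a b : H.A X, H.Deg X.dim a → H.Deg X.dim b → H.up π a = α • a →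
    H.up π b = α • b → a ≠ 0 → ∃ c : K, b = c • a
  transcendental : ∀ α ∈ S, ∀ n : ℕ, α ≠ (Q : K) ^ n

/-- The situation: `W` is a product of finitely many of the varieties `X i` (repetitions are allowed)
over the field with `Q` elements, which have simple Frobenius, with the sets `S i` of transcendental
eigenvalues; `πW` is its Frobenius endomorphism, and `πZ` is the Frobenius endomorphism of `Z`; and
homologically trivial self-correspondences of `W × Z` are nilpotent. -/
structure IsSituation [CharZero K] {I : Type} (X : I → 𝒱.Obj) (π : ∀ i, X i ⟶ X i)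
    (S : I → Set K) (πW : W ⟶ W) (πZ : Z ⟶ Z) (Q : ℕ) : Prop where
  one_lt : 1 < Q
  standard : IsStandard H
  comm : IsGradedCommutative H
  simple : ∀ i, IsSimple H (π i) Q (S i)
  product : IsProductOf X π W πW
  frobenius : IsFrobenius C πW Q
  pure_left : IsPure H πW Q
  pure_right : IsPure H πZ Q
  nilpotence : Nilpotence H (W.prod Z)

/-- There are no exceptional relations in the degrees `2 e ≤ 2 c`: each relation
`α 1 ⋯ α n β = Q ^ e`, `n > 0`, between transcendental eigenvalues `α k` of the `X (i k)` and an
eigenvalue `β` of Frobenius on `H^j(Z)`, where `dim X (i 1) + ... + dim X (i n) + j = 2 e`, contains a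
pair `α k * α l = Q ^ dim X i`, `k ≠ l`, of eigenvalues of the same variety `X i`. -/
def NoRelations {I : Type} (X : I → 𝒱.Obj) (S : I → Set K) (πZ : Z ⟶ Z) (Q c : ℕ) : Prop :=
  ∀ (e j n : ℕ) (i : Fin n → I) (α : Fin n → K) (b : H.A Z) (β : K), e ≤ c → 0 < n →
    (∀ k, α k ∈ S (i k)) → ∑ k, (X (i k)).dim + j = 2 * e → H.Deg j b → b ≠ 0 →
    H.up πZ b = β • b → (∏ k, α k) * β = (Q : K) ^ e →
      ∃ k l, k ≠ l ∧ i k = i l ∧ α k * α l = (Q : K) ^ (X (i k)).dim

/-- For surfaces `X i`: different `X i` have no common transcendental eigenvalues, and none of them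
occurs in `H^2(Z)` (in the form `α β ≠ Q ^ 2`; the sets `S i` and the eigenvalues on `H^2(Z)` are
stable under `α ↦ Q ^ 2 / α`, the complex conjugation). -/
def NoCommonEigenvalues {I : Type} (S : I → Set K) (πZ : Z ⟶ Z) (Q : ℕ) : Prop :=
  (∀ i j, i ≠ j → ∀ α ∈ S i, ∀ β ∈ S j, α * β ≠ (Q : K) ^ 2) ∧
  ∀ i, ∀ α ∈ S i, ∀ (b : H.A Z) (β : K), H.Deg 2 b → b ≠ 0 → H.up πZ b = β • b →
    α * β ≠ (Q : K) ^ 2

end Pool.Agent.T2h14.UC.Simple
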