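import Mathlib
import Pool.Agent.T2h14.UC.Stm3
import Pool.Agent.T2h14.UC.Gen

/-!
# Products of varieties with simple Frobenius, with bounds for the degrees
-/

set_option autoImplicit false
set_option linter.unusedSectionVars false

open CategoryTheory AlgebraicGeometry

universe u v w

namespace Pool.Agent.T2h14.UC.Simple

open Module Polynomial Pool.Agent.H914 Pool.Agent.H914.VarClass Pool.Agent.H914.VarClass.Obj
  Pool.Agent.W492.BB Pool.Agent.W550.Corr Pool.Agent.W484.TB Pool.Agent.W484.AA
  Pool.Agent.T2h14.PW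

variable {k : Type u} [Field k] {𝒱 : VarClass k} {C : TheoryData.{u, v, 0} 𝒱 ℚ} {K : Type w}
  [Field K] [CharZero K] {H : WeilTheoryData.{u, v, w} C K} [hC : IsChow C] [hH : IsWeil H]
  {Z : 𝒱.Obj}

variable {I : Type} (X : I → 𝒱.Obj) (π : ∀ i, X i ⟶ X i) (S : I → Set K)

/-- The labels of the root vectors. -/
abbrev Lab (S : I → Set K) := Σ i, {z : K // z ∈ S i}

/-- `v` is the pull-back, under an equivariant morphism to `X i`, of a root vector. -/
def IsRG (H : WeilTheoryData.{u, v, w} C K) {W : 𝒱.Obj} (πW : W ⟶ W) (v : H.A W) (y : Lab S) :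
    Prop :=
  ∃ p : W ⟶ X y.1, πW ≫ p = p ≫ π y.1 ∧ ∃ c ∈ H.gr (X y.1) (X y.1).dim,
    H.pull (π y.1) c = (y.2 : K) • c ∧ v = H.pull p c

/-- The weight of a list. -/
def wt (L : List (Lab S)) : ℕ := (L.map fun y => (X y.1).dim).sum

/-- The products of classes of cycles and of pull-backs of root vectors, with the bound. -/
def Mono (H : WeilTheoryData.{u, v, w} C K) {W : 𝒱.Obj} (πW : W ⟶ W) : Set (H.A W) :=
  {v | ∃ (n : ℕ) (a : H.A W) (L : List (H.A W × Lab S)), a ∈ GK H W n ∧
    (∀ e ∈ L, IsRG X π S H πW e.1 e.2) ∧ n + wt X S (L.map Prod.snd) ≤ W.dim ∧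
      v = a * (L.map Prod.fst).prod}

variable {X π S}

theorem mono_prod {W W' : 𝒱.Obj} {πW : W ⟶ W} {πW' : W' ⟶ W'} {a : H.A W} {b : H.A W'}
    (ha : a ∈ Mono X π S H πW) (hb : b ∈ Mono X π S H πW') :
    H.pull (fst W W') a * H.pull (snd W W') b ∈ Mono X π S H (prodMap πW πW') := by
  obtain ⟨n, a, L, ha, hL, hn, rfl⟩ := ha
  obtain ⟨n', a', L', ha', hL', hn', rfl⟩ := hb
  refine ⟨n + n', H.pull (fst W W') a * H.pull (snd W W') a',
    L.map (fun e => (H.pull (fst W W') e.1, e.2)) ++ L'.map (fun e => (H.pull (snd W W') e.1, e.2)),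
    mul_mem_GK (pull_mem_GK _ ha) (pull_mem_GK _ ha'), ?_, ?_, ?_⟩
  · intro e he
    rcases List.mem_append.1 he with h | h
    · obtain ⟨e', he', rfl⟩ := List.mem_map.1 h
      obtain ⟨p, hp, c, hc, hcs, hv⟩ := hL e' he'
      refine ⟨fst W W' ≫ p, ?_, c, hc, hcs, ?_⟩
      · rw [← Category.assoc, prodMap_fst, Category.assoc, hp, Category.assoc]
      · dsimp only
        rw [hv, H.pull_comp]
    · obtain ⟨e', he', rfl⟩ := List.mem_map.1 h
      obtain ⟨p, hp, c, hc, hcs, hv⟩ := hL' e' he'
      refine ⟨snd W W' ≫ p, ?_, c, hc, hcs, ?_⟩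
      · rw [← Category.assoc, prodMap_snd, Category.assoc, hp, Category.assoc]
      · dsimp only
        rw [hv, H.pull_comp]
  · rw [Obj.dim_prod, List.map_append, List.map_map, List.map_map, wt, List.map_append,
      List.sum_append]
    unfold wt at hn hn'
    have h1 : ((L.map (Prod.snd ∘ fun e => (H.pull (fst W W') e.1, e.2))).map
        fun y : Lab S => (X y.1).dim).sum = ((L.map Prod.snd).map fun y => (X y.1).dim).sum := rfl
    have h2 : ((L'.map (Prod.snd ∘ fun e => (H.pull (snd W W') e.1, e.2))).map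
        fun y : Lab S => (X y.1).dim).sum = ((L'.map Prod.snd).map fun y => (X y.1).dim).sum := rfl
    omega
  · have h1 : (L.map fun e => (H.pull (fst W W') e.1, e.2)).map Prod.fst =
        (L.map Prod.fst).map (H.pull (fst W W')) := by
      rw [List.map_map, List.map_map]
      rfl
    have h2 : (L'.map fun e => (H.pull (snd W W') e.1, e.2)).map Prod.fst =
        (L'.map Prod.fst).map (H.pull (snd W W')) := by
      rw [List.map_map, List.map_map]
      rfl
    rw [List.map_append, List.prod_append, h1, h2, map_mul, map_mul, _root_.map_list_prod,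
      _root_.map_list_prod]
    have h3 := GK_central (pull_mem_GK (snd W W') ha')
      (List.map (H.pull (fst W W')) (L.map Prod.fst)).prod
    simp only [mul_assoc]
    congr 1
    rw [← mul_assoc, ← mul_assoc, h3]

variable {Q : ℕ} (hX : ∀ i, IsSimple H (π i) Q (S i)) (hS : Pool.Agent.W484.CH.IsStandard H)

include hX hS in
/-- **The products span.** -/
theorem span_mono {W : 𝒱.Obj} {πW : W ⟶ W} (hW : Stm.IsProductOf X π W πW) :
    Submodule.span K (Mono X π S H πW) = ⊤ := by
  induction hW with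
  | base i =>
    rw [eq_top_iff]
    intro c _
    have h1 := (hX i).spanned c
    refine Submodule.span_le.2 ?_ h1
    rintro a (⟨n, z, hz, rfl⟩ | ⟨ha, α, hα, hαa⟩)
    · rcases Nat.lt_or_ge (X i).dim n with h2 | h2
      · have h3 : z = 0 := by
          have h4 := hz
          rw [TheoryData.Deg, hS.chow_top _ _ (by exact_mod_cast h2)] at h4
          exact (Submodule.mem_bot _).1 h4
        rw [h3, map_zero]
        exact Submodule.zero_mem _
      · exact Submodule.subset_span ⟨n, H.cl z, [], Submodule.subset_span ⟨z, hz, rfl⟩, by simp,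
          by simpa [wt] using h2, by simp⟩
    · refine Submodule.subset_span ⟨0, 1, [(a, ⟨i, α, hα⟩)], one_mem_GK, ?_, by simp [wt],
        by simp⟩
      intro e he
      rw [List.mem_singleton] at he
      subst he
      exact ⟨𝟙 _, by simp, a, ha, hαa, (H.pull_id a).symm⟩
  | prod W W' πW πW' _ _ ih ih' =>
    have := hS.finite W
    rw [eq_top_iff]
    intro c _
    obtain ⟨g, rfl⟩ := Pool.Agent.W484.CH.kunneth_exists (finBasis K (H.A W)) c
    refine Submodule.sum_mem _ fun t _ => ?_
    have h1 : finBasis K (H.A W) t ∈ Submodule.span K (Mono X π S H πW) := by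
      rw [ih]
      exact Submodule.mem_top
    have h2 : g t ∈ Submodule.span K (Mono X π S H πW') := by
      rw [ih']
      exact Submodule.mem_top
    generalize finBasis K (H.A W) t = x at h1
    generalize g t = y at h2
    rw [TheoryData.ext]
    induction h1 using Submodule.span_induction with
    | mem x hx =>
      induction h2 using Submodule.span_induction with
      | mem y hy => exact Submodule.subset_span (mono_prod hx hy)
      | zero => rw [map_zero, mul_zero]; exact Submodule.zero_mem _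
      | add y y' _ _ hy hy' => rw [map_add, mul_add]; exact Submodule.add_mem _ hy hy'
      | smul c y _ hy => rw [map_smul, mul_smul_comm]; exact Submodule.smul_mem _ _ hy
    | zero => rw [map_zero, zero_mul]; exact Submodule.zero_mem _
    | add x x' _ _ hx hx' => rw [map_add, add_mul]; exact Submodule.add_mem _ hx hx'
    | smul c x _ hx => rw [map_smul, smul_mul_assoc]; exact Submodule.smul_mem _ _ hx

theorem isRG_eigen {W : 𝒱.Obj} {πW : W ⟶ W} {v : H.A W} {y : Lab S}
    (h : IsRG X π S H πW v y) : H.pull πW v = (y.2 : K) • v := by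
  obtain ⟨p, hp, c, hc, hcs, rfl⟩ := h
  rw [← H.pull_comp, hp, H.pull_comp, hcs, map_smul]

theorem isRG_mem {W : 𝒱.Obj} {πW : W ⟶ W} {v : H.A W} {y : Lab S}
    (h : IsRG X π S H πW v y) : v ∈ H.gr W (X y.1).dim := by
  obtain ⟨p, hp, c, hc, hcs, rfl⟩ := h
  exact H.pull_mem p hc

theorem list_eigen {W : 𝒱.Obj} {πW : W ⟶ W} (L : List (H.A W × Lab S))
    (hL : ∀ e ∈ L, IsRG X π S H πW e.1 e.2) : H.pull πW (L.map Prod.fst).prod =
      (L.map (fun e => (e.2.2 : K))).prod • (L.map Prod.fst).prod := by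
  induction L with
  | nil => simp
  | cons e L ih =>
    rw [List.map_cons, List.prod_cons, map_mul, isRG_eigen (hL e (by simp)),
      ih (fun e' he' => hL e' (List.mem_cons_of_mem _ he')), List.map_cons, List.prod_cons,
      smul_mul_smul_comm]

theorem list_mem_gr {W : 𝒱.Obj} {πW : W ⟶ W} (L : List (H.A W × Lab S))
    (hL : ∀ e ∈ L, IsRG X π S H πW e.1 e.2) :
    (L.map Prod.fst).prod ∈ H.gr W (wt X S (L.map Prod.snd) : ℕ) := by
  induction L with
  | nil => simpa [wt] using H.one_mem W
  | cons e L ih =>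
    have h1 := H.mul_mem (isRG_mem (hL e (by simp)))
      (ih (fun e' he' => hL e' (List.mem_cons_of_mem _ he')))
    have h2 : ((X e.2.1).dim : ℤ) + (wt X S (L.map Prod.snd) : ℕ) =
        (wt X S ((e :: L).map Prod.snd) : ℕ) := by
      simp [wt]
    rw [h2] at h1
    rw [List.map_cons (f := Prod.fst), List.prod_cons]
    exact h1

variable (hcm : Stm.IsGradedCommutative H) (hQ : Q ≠ 0)

include hX hS hcm hQ in
/-- **The pairs**: the product of two root vectors with `α α' = Q ^ dim` is a combination of classes of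
cycles. -/
theorem pair_mem {W : 𝒱.Obj} {πW : W ⟶ W} {v v' : H.A W} {y y' : Lab S}
    (h : IsRG X π S H πW v y) (h' : IsRG X π S H πW v' y') (hi : y.1 = y'.1)
    (hyy : (y.2 : K) * y'.2 = (Q : K) ^ (X y.1).dim) : v * v' ∈ GK H W (X y.1).dim := by
  obtain ⟨i, z, hz⟩ := y
  obtain ⟨i', z', hz'⟩ := y'
  dsimp only at hi
  subst hi
  obtain ⟨p, hp, c, hc, hcs, rfl⟩ := h
  obtain ⟨p', hp', c', hc', hcs', rfl⟩ := h'
  dsimp only at p hp c hc hcs p' hp' c' hc' hcs' hyy ⊢
  have h1 : H.ext c c' ∈ GK H ((X i).prod (X i)) (X i).dim := by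
    refine ext_mem_GK hS hcm (Q := Q) ⟨(hX i).frobenius.chow, (hX i).frobenius.degree⟩
      hQ (S i) ?_ ?_ ?_ (c := c') (c' := c) (α := z') (α' := z) hz' ?_ hc' hc hcs' hcs
    · intro β hβ n hn
      exact (hX i).transcendental β hβ n hn
    · rw [eq_top_iff]
      intro c _
      refine Submodule.span_le.2 ?_ ((hX i).spanned c)
      rintro a (⟨n, z, hz, rfl⟩ | ⟨ha, α, hα, hαa⟩)
      · exact Submodule.subset_span (Or.inl ⟨n, Submodule.subset_span ⟨z, hz, rfl⟩⟩)
      · exact Submodule.subset_span (Or.inr ⟨ha, α, hα, hαa⟩)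
    · intro β hβ a ha b hb hae hbe ha0
      exact (hX i).simple β hβ a b ha hb hae hbe ha0
    · rw [mul_comm, hyy]
  have h2 : H.pull p c * H.pull p' c' = H.pull (Obj.lift p p') (H.ext c c') := by
    rw [TheoryData.ext, map_mul, ← H.pull_comp, ← H.pull_comp, lift_fst, lift_snd]
  rw [h2]
  exact pull_mem_GK _ h1

theorem wt_perm {L L' : List (Lab S)} (h : L.Perm L') : wt X S L = wt X S L' :=
  (h.map _).sum_eq

variable {c : ℕ} {πZ : Z ⟶ Z} (hno : NoRelations H X S πZ Q c)

include hno in
theorem not_pairwise {e j : ℕ} {b : H.A Z} {β : K} (he : e ≤ c) (hb : H.Deg j b) (hb0 : b ≠ 0)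
    (hβ : H.up πZ b = β • b) (ys : List (Lab S)) (hys : ys ≠ []) (hwt : wt X S ys + j = 2 * e)
    (hrel : (ys.map (fun y => (y.2 : K))).prod * β = (Q : K) ^ e) :
    ¬ ys.Pairwise fun y y' => ¬ (y.1 = y'.1 ∧ (y.2 : K) * y'.2 = (Q : K) ^ (X y.1).dim) := by
  intro hpw
  have hn : 0 < ys.length := List.length_pos_iff.2 hys
  obtain ⟨k, l, hkl, hkl1, hkl2⟩ := hno e j ys.length (fun l => (ys.get l).1)
    (fun l => ((ys.get l).2 : K)) b β he hn (fun l => (ys.get l).2.2) (by
      rw [← hwt, wt]
      congr 1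
      rw [← List.sum_ofFn]
      congr 1
      apply List.ext_getElem
      · simp
      · intro i h1 h2
        simp) hb hb0 hβ (by
    rw [← hrel]
    congr 1
    rw [← List.prod_ofFn]
    congr 1
    apply List.ext_getElem
    · simp
    · intro i h1 h2
      simp)
  rcases lt_or_gt_of_ne hkl with h1 | h1
  · exact (List.pairwise_iff_get.1 hpw) k l h1 ⟨hkl1, hkl2⟩
  · refine (List.pairwise_iff_get.1 hpw) l k h1 ⟨hkl1.symm, ?_⟩
    exact (mul_comm _ _).trans (hkl2.trans (congrArg (fun i => (Q : K) ^ (X i).dim) hkl1))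

include hX hS hcm hQ hno in
/-- **The induction.** -/
theorem list_mem {W : 𝒱.Obj} {πW : W ⟶ W} {j : ℕ} {b : H.A Z} {β : K} (hb : H.Deg j b)
    (hb0 : b ≠ 0) (hβ : H.up πZ b = β • b) :
    ∀ (n e : ℕ) (L : List (H.A W × Lab S)), e ≤ c → L.length = n →
      (∀ x ∈ L, IsRG X π S H πW x.1 x.2) → wt X S (L.map Prod.snd) + j = 2 * e →
      (L.map (fun x => (x.2.2 : K))).prod * β = (Q : K) ^ e →
      ∃ l : ℕ, wt X S (L.map Prod.snd) = 2 * l ∧ (L.map (fun x => (x.2.2 : K))).prod = (Q : K) ^ l ∧
        (L.map Prod.fst).prod ∈ GK H W l := by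
  intro n
  induction n using Nat.strong_induction_on with
  | _ n ih =>
    intro e L he hlen hL hwt hrel
    have hQ0 : (Q : K) ≠ 0 := by exact_mod_cast hQ
    rcases Nat.eq_zero_or_pos n with hn | hn
    · subst hn
      have hL0 : L = [] := List.length_eq_zero_iff.1 hlen
      subst hL0
      exact ⟨0, by simp [wt], by simp, by simpa using one_mem_GK⟩
    · have h3 := not_pairwise hno he hb hb0 hβ (L.map Prod.snd) (by
        rw [Ne, List.map_eq_nil_iff]
        rintro rfl
        rw [List.length_nil] at hlen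
        omega) hwt (by
        rw [List.map_map]
        exact hrel)
      rw [List.pairwise_map] at h3
      obtain ⟨x, x', L', hperm, hgood⟩ := Pool.Agent.W484.BB.exists_of_not_pairwise _ L h3
      rw [not_not] at hgood
      have hxL : x ∈ L := hperm.mem_iff.2 (by simp)
      have hxL' : x' ∈ L := hperm.mem_iff.2 (by simp)
      have hlen' : n = L'.length + 2 := by
        have h2 := hperm.length_eq
        rw [List.length_cons, List.length_cons, hlen] at h2
        omega
      have hwt' : wt X S (L.map Prod.snd) = 2 * (X x.2.1).dim + wt X S (L'.map Prod.snd) := by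
        rw [wt_perm (hperm.map Prod.snd)]
        simp only [wt, List.map_cons, List.sum_cons, ← hgood.1]
        ring
      obtain ⟨b', hb'⟩ := prod_perm_scalar (K := K) (hperm.map Prod.fst) (by
        intro a ha b hb
        rw [List.mem_map] at ha hb
        obtain ⟨e₁, he₁, rfl⟩ := ha
        obtain ⟨e₂, he₂, rfl⟩ := hb
        exact ⟨_, graded_comm hcm (isRG_mem (hL e₁ he₁)) (isRG_mem (hL e₂ he₂))⟩)
      have h3 : (L.map (fun x => (x.2.2 : K))).prod = (Q : K) ^ (X x.2.1).dim *
          (L'.map (fun x => (x.2.2 : K))).prod := by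
        rw [(hperm.map (fun x => (x.2.2 : K))).prod_eq, List.map_cons, List.prod_cons,
          List.map_cons, List.prod_cons, ← mul_assoc, hgood.2]
      obtain ⟨l, hl, hkv, h5⟩ := ih L'.length (by omega) (e - (X x.2.1).dim) L' (by omega) rfl
        (fun e₁ he₁ => hL e₁ (hperm.mem_iff.2
          (List.mem_cons_of_mem _ (List.mem_cons_of_mem _ he₁)))) (by omega) (by
        have h6 : (Q : K) ^ e = (Q : K) ^ (X x.2.1).dim * (Q : K) ^ (e - (X x.2.1).dim) := by
          rw [← pow_add]
          congr 1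
          omega
        rw [h3, h6, mul_assoc] at hrel
        exact mul_left_cancel₀ (pow_ne_zero _ hQ0) hrel)
      refine ⟨(X x.2.1).dim + l, by omega, by rw [h3, hkv, pow_add], ?_⟩
      rw [hb']
      refine Submodule.smul_mem _ _ ?_
      rw [List.map_cons, List.prod_cons, List.map_cons, List.prod_cons, ← mul_assoc]
      exact mul_mem_GK (pair_mem hX hS hcm hQ (hL x hxL) (hL x' hxL') hgood.1 hgood.2) h5

end Pool.Agent.T2h14.UC.Simple
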