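import Mathlib
import Pool.Agent.T2h14.UC.Mono

/-!
# Unramified cohomology of products: the main theorems
-/

set_option autoImplicit false
set_option linter.unusedSectionVars false

open CategoryTheory AlgebraicGeometry

universe u v w

namespace Pool.Agent.T2h14.UC

open Module Polynomial Pool.Agent.H914 Pool.Agent.H914.VarClass Pool.Agent.H914.VarClass.Obj
  Pool.Agent.W492.BB Pool.Agent.W550.Corr Pool.Agent.T2h14.PW

section general

variable {k : Type u} [Field k] {𝒱 : VarClass k} {C : TheoryData.{u, 0, 0} 𝒱 ℚ} {K : Type w}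
  [Field K] [CharZero K] [IsAlgClosed K] {H : WeilTheoryData.{u, 0, w} C K} [hC : IsChow C]
  [hH : IsWeil H] {W Z : 𝒱.Obj}

/-- **The general theorem.** -/
theorem general {πW : W ⟶ W} {πZ : Z ⟶ Z} {Q c : ℕ} (h : IsSituation H πW πZ Q c)
    {U : CycleCohomology C} (hU : U.IsTheory c) (hF : U.FrobeniusActs (prodMap πW πZ) Q) :
    UnramifiedReduces U c W Z := by
  obtain ⟨J, hJ, deg, D, E, hdual, hK⟩ := kunneth_at h
  exact reduces U hU hdual (fun z hz => h.standard.chow_zero W z hz)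
    (hK (corrData U hU) (isCorrTheory U hU) (actsAsPower U hU hF))

end general

namespace Simple

section

variable {k : Type u} [Field k] {𝒱 : VarClass k} {C : TheoryData.{u, v, 0} 𝒱 ℚ} {K : Type w}
  [Field K] [CharZero K] {H : WeilTheoryData.{u, v, w} C K} [hC : IsChow C] [hH : IsWeil H]
  {W Z : 𝒱.Obj} {I : Type} {X : I → 𝒱.Obj} {π : ∀ i, X i ⟶ X i} {S : I → Set K} {πW : W ⟶ W}
  {πZ : Z ⟶ Z} {Q c : ℕ}

/-- Purity: the degrees of eigenvectors. -/
theorem degree_of_pure (hQ : 1 < Q) (hW : IsPure H πW Q) (hZ : IsPure H πZ Q) {i j e : ℕ}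
    {a : H.A W} {b : H.A Z} {α β : K} (ha : H.Deg i a) (hb : H.Deg j b) (ha0 : a ≠ 0)
    (hb0 : b ≠ 0) (hα : H.up πW a = α • a) (hβ : H.up πZ b = β • b) (hαβ : α * β = (Q : K) ^ e) :
    i + j = 2 * e := by
  obtain ⟨χ, hχ, h1, h2⟩ := hW i a α ha ha0 hα
  obtain ⟨χ', hχ', h3, h4⟩ := hZ j b β hb hb0 hβ
  obtain ⟨z, z', hz, hz', hzz⟩ := exists_embed hχ h1 hχ' h3 Q e hαβ
  have h5 : ‖z‖ ^ 2 * ‖z'‖ ^ 2 = (Q : ℝ) ^ (2 * e) := by
    rw [← mul_pow, ← norm_mul, hzz, norm_pow, Complex.norm_natCast, ← pow_mul, mul_comm]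
  rw [h2 z hz, h4 z' hz', ← pow_add] at h5
  exact pow_right_injective₀ (by exact_mod_cast hQ.le.trans_lt' one_pos)
    (by exact_mod_cast hQ.ne') h5

variable (h : IsSituation H X π S πW πZ Q) (hno : NoRelations H X S πZ Q c)

include h hno in
/-- **The Kunneth formula in degree `c`.** -/
theorem kunneth_at [IsAlgClosed K] :
    ∃ (J : Type) (_ : Fintype J) (deg : J → ℕ) (D E : J → C.A W),
      Pool.Agent.W484.CH.IsDual W Z deg D E ∧
      ∀ T : Pool.Agent.W484.CH.CorrData C, Pool.Agent.W484.CH.IsCorrTheory T →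
        Pool.Agent.W484.CH.ActsAsPower T (prodMap πW πZ) Q →
        ∀ (m : T.M (W.prod Z)), m ∈ T.gr (W.prod Z) c →
          m = ∑ j, T.act (Pool.Agent.W484.CH.extBy C Z (D j))
            (T.act (Pool.Agent.W484.CH.pairBy C Z (E j)) m) := by
  have hS := Pool.Agent.W484.CK.isStandard_bridge h.standard
  have hQ1 : 1 < Q := h.one_lt
  have hQ0 : Q ≠ 0 := by omega
  have hQK : (Q : K) ≠ 0 := by exact_mod_cast hQ0
  have hfin := hS.finite W
  have hspanM := span_mono h.simple hS h.product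
  obtain ⟨b₀, hb₀, hspan, hli⟩ := Submodule.exists_fun_fin_finrank_span_eq K (Mono X π S H πW)
  have hspan' : Submodule.span K (Set.range b₀) = ⊤ := by rw [hspan, hspanM]
  let b := Basis.mk hli (by rw [hspan'])
  have hbt : ∀ t, b t = b₀ t := fun t => by rw [Basis.mk_apply]
  choose m a L ha hL hbd hbL using hb₀
  have hb0 : ∀ t, b₀ t ≠ 0 := fun t => hli.ne_zero t
  have hπ := Pool.Agent.W484.CK.isFrobenius_bridge h.frobenius
  let α : Fin _ → K := fun t => (Q : K) ^ m t * ((L t).map (fun x => (x.2.2 : K))).prod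
  have hαb : ∀ t, H.pull πW (b₀ t) = α t • b₀ t := by
    intro t
    rw [hbL, map_mul, GK_eigen hπ (ha t), list_eigen (L t) (hL t), smul_mul_smul_comm]
  have hb : ∀ t, H.pull πW (b t) = α t • b t := fun t => by rw [hbt]; exact hαb t
  have hdeg : ∀ t, H.Deg ((2 * m t + wt X S ((L t).map Prod.snd) : ℕ) : ℤ) (b₀ t) := by
    intro t
    have h1 : a t ∈ H.gr W (2 * (m t : ℤ)) := by
      have h2 := ha t
      unfold GK at h2
      refine Submodule.span_le.2 ?_ h2
      rintro _ ⟨D, hD, rfl⟩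
      exact H.cl_mem hD
    have h2 := H.mul_mem h1 (list_mem_gr (L t) (hL t))
    rw [← hbL] at h2
    push_cast
    push_cast at h2
    exact h2
  have hαint : ∀ t, IsIntegral ℚ (α t) := by
    intro t
    obtain ⟨χ, hχ, h1, -⟩ := h.pure_left _ (b₀ t) (α t) (hdeg t) (hb0 t) (hαb t)
    exact isAlgebraic_iff_isIntegral.1 ⟨χ, hχ, h1⟩
  have hZ : ∀ (ρ : K) (v : H.A Z), v ≠ 0 → H.pull πZ v = ρ • v → IsIntegral ℚ ρ := by
    intro ρ v hv0 hv
    obtain ⟨j, a, ha0, ha, ha'⟩ := exists_homog πZ hv0 hv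
    obtain ⟨χ, hχ, h2, -⟩ := h.pure_right j a ρ ha ha0 ha'
    exact isAlgebraic_iff_isIntegral.1 ⟨χ, hχ, h2⟩
  have hnz := hS.nontrivial Z
  have h1Z : H.Deg ((0 : ℕ) : ℤ) (1 : H.A Z) := H.one_mem Z
  have h1π : H.up πZ (1 : H.A Z) = (1 : K) • 1 := by
    rw [one_smul]
    exact map_one _
  refine UC.kunneth_basis hS hQ1 hπ b α hb hαint hZ ?_ ?_
    (Pool.Agent.W484.CK.nilpotence_bridge h.nilpotence)
  · -- top degrees
    intro n hn hnd t ht
    have h2 : 2 * m t + wt X S ((L t).map Prod.snd) + 0 = 2 * (W.dim - n) :=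
      degree_of_pure hQ1 h.pure_left h.pure_right (hdeg t) h1Z (hb0 t) one_ne_zero (hαb t) h1π
        (by rw [mul_one]; exact ht)
    have h3 := hbd t
    obtain ⟨l, hl, hl', hl''⟩ := list_mem h.simple hS h.comm hQ0 hno h1Z one_ne_zero h1π _
      (W.dim - n - m t) (L t) (by omega) rfl (hL t) (by omega) (by
        rw [mul_one]
        have h4 : α t = (Q : K) ^ m t * (Q : K) ^ (W.dim - n - m t) := by
          rw [ht, ← pow_add]
          congr 1
          omega
        exact mul_left_cancel₀ (pow_ne_zero _ hQK) h4)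
    rw [hbt, hbL, show W.dim - n = m t + l by omega]
    exact mul_mem_GK (ha t) hl''
  · -- the mixed part
    intro t ρ v hv0 hv hc
    rw [zpow_natCast] at hc
    obtain ⟨j, y, hy0, hy, hy'⟩ := exists_homog πZ hv0 hv
    have h2 := degree_of_pure hQ1 h.pure_left h.pure_right (hdeg t) hy (hb0 t) hy0 (hαb t) hy' hc
    obtain ⟨l, hl, hl', hl''⟩ := list_mem h.simple hS h.comm hQ0 hno hy hy0 hy' _
      (c - m t) (L t) (by omega) rfl (hL t) (by omega) (by
        have h4 : (Q : K) ^ m t * ((L t).map (fun x => (x.2.2 : K))).prod * ρ =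
            (Q : K) ^ m t * (Q : K) ^ (c - m t) := by
          rw [← pow_add]
          refine hc.trans ?_
          congr 1
          omega
        rw [mul_assoc] at h4
        exact mul_left_cancel₀ (pow_ne_zero _ hQK) h4)
    refine ⟨m t + l, by omega, ?_⟩
    rw [hbt, hbL]
    exact mul_mem_GK (ha t) hl''

end

section

variable {k : Type u} [Field k] {𝒱 : VarClass k} {C : TheoryData.{u, 0, 0} 𝒱 ℚ} {K : Type w}
  [Field K] [CharZero K] {H : WeilTheoryData.{u, 0, w} C K} [hC : IsChow C] [hH : IsWeil H]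
  {W Z : 𝒱.Obj} {I : Type} {X : I → 𝒱.Obj} {π : ∀ i, X i ⟶ X i} {S : I → Set K} {πW : W ⟶ W}
  {πZ : Z ⟶ Z} {Q c : ℕ}

/-- **Products of varieties with simple Frobenius.** -/
theorem main [IsAlgClosed K] (h : IsSituation H X π S πW πZ Q) (hno : NoRelations H X S πZ Q c)
    {U : CycleCohomology C} (hU : U.IsTheory c) (hF : U.FrobeniusActs (prodMap πW πZ) Q) :
    UnramifiedReduces U c W Z := by
  obtain ⟨J, hJ, deg, D, E, hdual, hK⟩ := kunneth_at h hno
  exact reduces U hU hdual (fun z hz => h.standard.chow_zero W z hz)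
    (hK (corrData U hU) (isCorrTheory U hU) (actsAsPower U hU hF))

/-- Varieties of dimension larger than `2 c`. -/
theorem noRelations_of_dim (hdim : ∀ i, 2 * c < (X i).dim) : NoRelations H X S πZ Q c := by
  intro e j n i α b β he hn hα hwt
  exfalso
  have h1 : (X (i ⟨0, hn⟩)).dim ≤ ∑ k, (X (i k)).dim :=
    Finset.single_le_sum (f := fun k => (X (i k)).dim) (fun _ _ => Nat.zero_le _)
      (Finset.mem_univ _)
  have h2 := hdim (i ⟨0, hn⟩)
  omega

/-- Surfaces, in degree four. -/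
theorem noRelations_of_surfaces (h : IsSituation H X π S πW πZ Q) (hdim : ∀ i, (X i).dim = 2)
    (hcom : NoCommonEigenvalues H S πZ Q) : NoRelations H X S πZ Q 2 := by
  intro e j n i α b β he hn hα hwt hb hb0 hβ hrel
  simp only [hdim, Finset.sum_const, Finset.card_univ, Fintype.card_fin, smul_eq_mul] at hwt
  have hzero : j = 0 → β = 1 := by
    intro hj
    subst hj
    obtain ⟨t, rfl⟩ := h.standard.coh_zero Z b hb
    have ht : t ≠ 0 := by
      rintro rfl
      exact hb0 (zero_smul _ _)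
    have h1 : H.up πZ (t • (1 : H.A Z)) = t • 1 := by
      rw [TheoryData.up, map_smul, map_one]
    rw [h1] at hβ
    have hnz := h.standard.nontrivial Z
    rw [smul_smul, ← sub_eq_zero, ← sub_smul] at hβ
    have h2 := (smul_eq_zero.1 hβ).resolve_right one_ne_zero
    have h3 : (1 - β) * t = 0 := by rw [← h2]; ring
    exact (sub_eq_zero.1 ((mul_eq_zero.1 h3).resolve_right ht)).symm
  have hn2 : n = 1 ∨ n = 2 := by omega
  rcases hn2 with rfl | rfl
  · exfalso
    rw [Fin.prod_univ_one] at hrel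
    rcases Nat.lt_or_ge e 2 with he2 | he2
    · have h1 := hzero (by omega)
      rw [h1, mul_one] at hrel
      exact (h.simple (i 0)).transcendental (α 0) (hα 0) e hrel
    · have he3 : e = 2 := by omega
      subst he3
      have hj : j = 2 := by omega
      subst hj
      exact hcom.2 (i 0) (α 0) (hα 0) b β hb hb0 hβ hrel
  · have he3 : e = 2 := by omega
    subst he3
    have h1 := hzero (by omega)
    rw [h1, mul_one, Fin.prod_univ_two] at hrel
    by_cases hi : i 0 = i 1
    · exact ⟨0, 1, by simp, hi, by rw [hdim]; exact hrel⟩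
    · exact (hcom.1 (i 0) (i 1) hi (α 0) (hα 0) (α 1) (hα 1) hrel).elim

end

end Simple

end Pool.Agent.T2h14.UC
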