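import Mathlib
import Pool.Agent.T2h14.UC.Stm3

/-!
# Unramified cohomology of products and relations between roots of polynomials: statements
-/

set_option autoImplicit false

open CategoryTheory AlgebraicGeometry

namespace Pool.Agent.T2h14.UC.Simple

open Polynomial Pool.Agent.H914 Pool.Agent.H914.VarClass Pool.Agent.H914.VarClass.Obj
  Pool.Agent.W492.BB

/-- The powers `z ^ s` of the roots `z` of the polynomials `f i` in the field `K`. -/
def powers (K : Type*) [Field K] (s : ℕ) {I : Type} (f : I → ℤ[X]) (i : I) : Set K :=
  {α | ∃ z : K, aeval z (f i) = 0 ∧ α = z ^ s}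

/-- `UnramifiedForProducts E q r w f`: the following holds for the Chow groups `C` with rational
coefficients of all classes `𝒱` of varieties over fields `k` (finite, in the intended use), every
Weil cohomology theory `H` with coefficients in an algebraically closed field `K` of characteristic
zero, and all varieties `X i` of dimension `w i` over the field with `q ^ s` elements, `s > 0`, with
simple Frobenius, whose transcendental eigenvalues are powers `z ^ s` of roots `z` of `f i`, all products
`W` of them, and **all** `Z` such that homologically trivial self-correspondences of `W × Z` are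
nilpotent (see `IsSituation`), and such that the eigenvalues of Frobenius on the cohomology of `Z` lie,
up to powers, in a group generated by the nonzero elements of `E` and `r` numbers
(`EigenvaluesOfRank`). For **all** `c` and all theories `U` of cycle cohomology, on which the Frobenius
endomorphism of `W × Z` acts in the usual way, the unramified cohomology groups of `W × Z` and of `Z` in
weight `c` agree up to groups of finite exponent, and one of them is finite if and only if the other
is (`UnramifiedReduces`). -/
def UnramifiedForProducts (E : IntermediateField ℚ ℂ) (q r : ℕ) {I : Type} (w : I → ℕ)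
    (f : I → ℤ[X]) : Prop :=
  ∀ (k : Type) [Field k] (𝒱 : VarClass k) (C : TheoryData.{0, 0, 0} 𝒱 ℚ) [IsChow C]
    (K : Type) [Field K] [IsAlgClosed K] [CharZero K] (H : WeilTheoryData.{0, 0, 0} C K)
    [IsWeil H] (s : ℕ) (X : I → 𝒱.Obj) (π : ∀ i, X i ⟶ X i) (W Z : 𝒱.Obj) (πW : W ⟶ W)
    (πZ : Z ⟶ Z), 0 < s → (∀ i, (X i).dim = w i) →
      IsSituation H X π (powers K s f) πW πZ (q ^ s) →
        Pool.Agent.W484.CK.EigenvaluesOfRank H E r πZ → ∀ (c : ℕ) (U : CycleCohomology C),
          U.IsTheory c → U.FrobeniusActs (prodMap πW πZ) (q ^ s) → UnramifiedReduces U c W Z

end Pool.Agent.T2h14.UC.Simple
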