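import Mathlib
import Pool.Agent.T2h14.UC.Main
import Pool.Agent.T2h14.UC.HodgeStm
import Pool.Agent.T2h14.PW.Rel

/-!
# Unramified cohomology of products and relations between roots of polynomials
-/

set_option autoImplicit false
set_option linter.unusedSectionVars false

open CategoryTheory AlgebraicGeometry

universe u v w

namespace Pool.Agent.T2h14.UC.Simple

open Module Polynomial Pool.Agent.H914 Pool.Agent.H914.VarClass Pool.Agent.H914.VarClass.Obj
  Pool.Agent.W492.BB Pool.Agent.T2h14.PW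

theorem noRelations_of {k : Type u} [Field k] {𝒱 : VarClass k} {C : TheoryData.{u, v, 0} 𝒱 ℚ}
    {K : Type w} [Field K] [CharZero K] {H : WeilTheoryData.{u, v, w} C K} {Z : 𝒱.Obj} {I : Type}
    {X : I → 𝒱.Obj} {πZ : Z ⟶ Z} {q r s : ℕ} {w : I → ℕ} {f : I → ℤ[X]}
    {E : IntermediateField ℚ ℂ} (hf : ∀ i, f i ≠ 0) (hno : Stm.NoRelations E q r w f)
    (hs : 0 < s) (hX : ∀ i, (X i).dim = w i)
    (hZ : Pool.Agent.W484.CK.EigenvaluesOfRank H E r πZ) (c : ℕ) :
    NoRelations H X (powers K s f) πZ (q ^ s) c := by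
  intro e j n i α b β _ hn hα _ _ hb0 hβ hrel
  choose z hz hαz using hα
  obtain ⟨χ, hχ, hχe, hrank⟩ := hZ
  have h1 := Pool.Agent.T2h14.PW.not_pairwise E hf hno hs hχ hrank (hχe β b hb0 hβ) (e : ℤ) 1
    one_pos (List.ofFn fun k => (⟨i k, z k, hz k⟩ : Lb K f)) (by
      rw [Ne, List.ofFn_eq_nil_iff]
      omega) (by
      rw [pow_one, pow_one, List.map_ofFn, List.prod_ofFn, zpow_natCast]
      rw [show (∏ k, α k) = ∏ k, ((fun y : Lb K f => (y.2 : K) ^ s) ∘
        fun k => (⟨i k, z k, hz k⟩ : Lb K f)) k from Finset.prod_congr rfl fun k _ => hαz k] at hrel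
      exact_mod_cast hrel)
  by_contra hcon
  push Not at hcon
  apply h1
  rw [List.pairwise_ofFn]
  rintro a b hab ⟨h2, h3⟩
  refine hcon a b hab.ne h2 ?_
  rw [hαz, hαz, ← mul_pow, hX (i a), Nat.cast_pow, ← pow_mul, mul_comm s, pow_mul]
  exact congrArg (· ^ s) h3

/-- **Products, from the relations between the roots.** -/
theorem unramifiedForProducts_of {I : Type} {q r : ℕ} {w : I → ℕ} {f : I → ℤ[X]}
    {E : IntermediateField ℚ ℂ} (hf : ∀ i, f i ≠ 0) (hno : Stm.NoRelations E q r w f) :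
    UnramifiedForProducts E q r w f := by
  intro k _ 𝒱 C _ K _ _ _ H _ s X π W Z πW πZ hs hX hsit hZ c U hU hF
  exact main hsit (noRelations_of hf hno hs hX hZ c) hU hF

end Pool.Agent.T2h14.UC.Simple
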